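import Mathlib

set_option autoImplicit false

namespace Pool.Agent.Helper54

/-- The axioms of a norm on the plane. -/
structure IsNorm2 (N : (Fin 2 → ℝ) → ℝ) : Prop where
  eq_zero : ∀ x, N x = 0 → x = 0
  tri : ∀ x y, N (x + y) ≤ N x + N y
  hom : ∀ (r : ℝ) (x : Fin 2 → ℝ), N (r • x) = |r| * N x

namespace IsNorm2

variable {N : (Fin 2 → ℝ) → ℝ} (hN : IsNorm2 N)
include hN

lemma zero : N 0 = 0 := by
  have := hN.hom 0 0
  simpa using this

lemma neg (x : Fin 2 → ℝ) : N (-x) = N x := by
  have := hN.hom (-1) x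
  simpa using this

lemma nonneg (x : Fin 2 → ℝ) : 0 ≤ N x := by
  have h := hN.tri x (-x)
  rw [add_neg_cancel, hN.zero, hN.neg] at h
  linarith

lemma sub_le (x y : Fin 2 → ℝ) : N (x - y) ≤ N x + N y := by
  have h := hN.tri x (-y)
  rw [hN.neg] at h
  rwa [sub_eq_add_neg]

lemma lin2 (s t : ℝ) (a b : Fin 2 → ℝ) : N (s • a + t • b) ≤ |s| * N a + |t| * N b := by
  have h := hN.tri (s • a) (t • b)
  rwa [hN.hom, hN.hom] at h

lemma sub_comm' (x y : Fin 2 → ℝ) : N (x - y) = N (y - x) := by
  rw [← hN.neg, neg_sub]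

/-- The exchange inequality. -/
lemma exchange {l m : ℝ} (hl0 : 0 ≤ l) (hl1 : l ≤ 1) (hm0 : 0 ≤ m) (hm1 : m ≤ 1)
    (a b d : Fin 2 → ℝ) (hd : d = l • a + m • b) :
    N (a - d) + N (b - d) ≤ N a + N b := by
  have h1 := hN.lin2 (1 - l) (-m) a b
  have h2 := hN.lin2 (-l) (1 - m) a b
  have e1 : a - d = (1 - l) • a + (-m) • b := by rw [hd]; module
  have e2 : b - d = (-l) • a + (1 - m) • b := by rw [hd]; module
  rw [e1, e2]
  rw [abs_of_nonneg (by linarith : (0:ℝ) ≤ 1 - l), abs_neg, abs_of_nonneg hm0] at h1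
  rw [abs_of_nonneg (by linarith : (0:ℝ) ≤ 1 - m), abs_neg, abs_of_nonneg hl0] at h2
  linarith

end IsNorm2

/-- Three vectors in the plane satisfy a nontrivial linear relation. -/
lemma rel3 (a b c : Fin 2 → ℝ) :
    ∃ p q s : ℝ, (p ≠ 0 ∨ q ≠ 0 ∨ s ≠ 0) ∧ p • a + q • b + s • c = 0 := by
  let v : Fin 3 → (Fin 2 → ℝ) := ![a, b, c]
  have hker : LinearMap.ker (Fintype.linearCombination ℝ v) ≠ ⊥ := by
    apply LinearMap.ker_ne_bot_of_finrank_lt
    simp
  obtain ⟨t, ht, ht0⟩ := (Submodule.ne_bot_iff _).1 hker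
  refine ⟨t 0, t 1, t 2, ?_, ?_⟩
  · by_contra hcon
    push Not at hcon
    apply ht0
    ext i
    fin_cases i
    · exact hcon.1
    · exact hcon.2.1
    · exact hcon.2.2
  · rw [LinearMap.mem_ker, Fintype.linearCombination_apply, Fin.sum_univ_three] at ht
    simpa [v] using ht

/-- Normalised form of the relation: the largest coefficient is one. -/
lemma rel3_norm (a b c : Fin 2 → ℝ) :
    (∃ l k : ℝ, |l| ≤ 1 ∧ |k| ≤ 1 ∧ c = l • a + k • b) ∨
    (∃ l k : ℝ, |l| ≤ 1 ∧ |k| ≤ 1 ∧ b = l • a + k • c) ∨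
    (∃ l k : ℝ, |l| ≤ 1 ∧ |k| ≤ 1 ∧ a = l • b + k • c) := by
  obtain ⟨p, q, s, hne, hrel⟩ := rel3 a b c
  have key : ∀ (u v w : Fin 2 → ℝ) (x y z : ℝ), z ≠ 0 → |x| ≤ |z| → |y| ≤ |z| →
      x • u + y • v + z • w = 0 → ∃ l k : ℝ, |l| ≤ 1 ∧ |k| ≤ 1 ∧ w = l • u + k • v := by
    intro u v w x y z hz hx hy h
    refine ⟨-(x / z), -(y / z), ?_, ?_, ?_⟩
    · rw [abs_neg, abs_div]; exact div_le_one_of_le₀ hx (abs_nonneg _)
    · rw [abs_neg, abs_div]; exact div_le_one_of_le₀ hy (abs_nonneg _)
    · have h2 : z • w = -(x • u + y • v) := by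
        rw [eq_neg_iff_add_eq_zero, add_comm]; exact h
      have h3 : w = z⁻¹ • (z • w) := by rw [smul_smul, inv_mul_cancel₀ hz, one_smul]
      rw [h3, h2, div_eq_mul_inv, div_eq_mul_inv]
      module
  by_cases h1 : |p| ≤ |s| ∧ |q| ≤ |s|
  · left
    have hs : s ≠ 0 := by
      intro h0
      rw [h0, abs_zero] at h1
      have hp : p = 0 := abs_eq_zero.1 (le_antisymm h1.1 (abs_nonneg _))
      have hq : q = 0 := abs_eq_zero.1 (le_antisymm h1.2 (abs_nonneg _))
      rcases hne with h | h | h
      · exact h hp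
      · exact h hq
      · exact h h0
    exact key a b c p q s hs h1.1 h1.2 hrel
  · by_cases h2 : |p| ≤ |q| ∧ |s| ≤ |q|
    · right; left
      have hs : q ≠ 0 := by
        intro h0
        rw [h0, abs_zero] at h2
        have hp : p = 0 := abs_eq_zero.1 (le_antisymm h2.1 (abs_nonneg _))
        have hq : s = 0 := abs_eq_zero.1 (le_antisymm h2.2 (abs_nonneg _))
        rcases hne with h | h | h
        · exact h hp
        · exact h h0
        · exact h hq
      exact key a c b p s q hs h2.1 h2.2 (by rw [← hrel]; abel)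
    · right; right
      have h3 : |q| ≤ |p| ∧ |s| ≤ |p| := by
        rcases le_total |p| |s| with h | h
        · -- then q > s
          have hq : |s| < |q| := by
            by_contra hh
            exact h1 ⟨h, not_lt.1 hh⟩
          exact absurd ⟨h.trans hq.le, hq.le⟩ h2
        · refine ⟨?_, h⟩
          by_contra hh
          exact h2 ⟨(not_le.1 hh).le, h.trans (not_le.1 hh).le⟩
      have hs : p ≠ 0 := by
        intro h0
        rw [h0, abs_zero] at h3
        have hp : q = 0 := abs_eq_zero.1 (le_antisymm h3.1 (abs_nonneg _))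
        have hq : s = 0 := abs_eq_zero.1 (le_antisymm h3.2 (abs_nonneg _))
        rcases hne with h | h | h
        · exact h h0
        · exact h hp
        · exact h hq
      exact key b c a q s p hs h3.1 h3.2 (by rw [← hrel]; abel)

namespace IsNorm2

variable {N : (Fin 2 → ℝ) → ℝ} (hN : IsNorm2 N)
include hN

/-- The norm part of the Fano line lemma. -/
lemma fano_norm (a b c : Fin 2 → ℝ) (m : ℝ) (hab : N b < N a) (hbc : N c < N b)
    (hm : N b < m) (Ca : 2 * m ≤ N (-a + b + c)) (Cb : 2 * N a ≤ N (a - b + c))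
    (Cc : 2 * N a ≤ N (a + b - c)) (Dbc : N a ≤ N (b - c)) (Dac : m ≤ N (a - c))
    (Dab : m ≤ N (a - b)) : False := by
  have hc0 := hN.nonneg c
  rcases rel3_norm a b c with ⟨l, k, hl, hk, h⟩ | ⟨l, k, hl, hk, h⟩ | ⟨l, k, hl, hk, h⟩
  · -- c = l a + k b
    rw [abs_le] at hl hk
    rcases le_total 0 l with hl0 | hl0 <;> rcases le_total 0 k with hk0 | hk0
    · have h1 := hN.exchange hl0 hl.2 hk0 hk.2 a b c h
      linarith
    · -- c = l a - |k| b
      have h1 : N (a + b - c) ≤ |1 - l| * N a + |1 - k| * N b := by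
        have e : a + b - c = (1 - l) • a + (1 - k) • b := by rw [h]; module
        rw [e]; exact hN.lin2 _ _ _ _
      have h2 : N (-a + b + c) ≤ |l - 1| * N a + |1 + k| * N b := by
        have e : -a + b + c = (l - 1) • a + (1 + k) • b := by rw [h]; module
        rw [e]; exact hN.lin2 _ _ _ _
      rw [abs_of_nonneg (by linarith : (0:ℝ) ≤ 1 - l),
        abs_of_nonneg (by linarith : (0:ℝ) ≤ 1 - k)] at h1
      rw [abs_of_nonpos (by linarith : l - 1 ≤ 0),
        abs_of_nonneg (by linarith : (0:ℝ) ≤ 1 + k)] at h2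
      nlinarith
    · have h1 : N (a - b + c) ≤ |1 + l| * N a + |k - 1| * N b := by
        have e : a - b + c = (1 + l) • a + (k - 1) • b := by rw [h]; module
        rw [e]; exact hN.lin2 _ _ _ _
      rw [abs_of_nonneg (by linarith : (0:ℝ) ≤ 1 + l),
        abs_of_nonpos (by linarith : k - 1 ≤ 0)] at h1
      nlinarith
    · have h1 := hN.exchange (l := -l) (m := -k) (by linarith) (by linarith) (by linarith)
        (by linarith) a b (-c) (by rw [h]; module)
      have h2 := hN.sub_le (a + c) b
      have h3 := hN.sub_le (b + c) a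
      have e1 : a - -c = a + c := by abel
      have e2 : b - -c = b + c := by abel
      have e3 : a + c - b = a - b + c := by abel
      have e4 : b + c - a = -a + b + c := by abel
      rw [e1, e2] at h1
      rw [e3] at h2
      rw [e4] at h3
      linarith
  · -- b = l a + k c
    rw [abs_le] at hl hk
    rcases le_total 0 l with hl0 | hl0 <;> rcases le_total 0 k with hk0 | hk0
    · have h1 := hN.exchange hl0 hl.2 hk0 hk.2 a c b h
      rw [hN.sub_comm' c b] at h1
      linarith
    · have h1 : N (a - b + c) ≤ |1 - l| * N a + |1 - k| * N c := by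
        have e : a - b + c = (1 - l) • a + (1 - k) • c := by rw [h]; module
        rw [e]; exact hN.lin2 _ _ _ _
      have h2 : N (-a + b + c) ≤ |l - 1| * N a + |1 + k| * N c := by
        have e : -a + b + c = (l - 1) • a + (1 + k) • c := by rw [h]; module
        rw [e]; exact hN.lin2 _ _ _ _
      rw [abs_of_nonneg (by linarith : (0:ℝ) ≤ 1 - l),
        abs_of_nonneg (by linarith : (0:ℝ) ≤ 1 - k)] at h1
      rw [abs_of_nonpos (by linarith : l - 1 ≤ 0),
        abs_of_nonneg (by linarith : (0:ℝ) ≤ 1 + k)] at h2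
      nlinarith
    · have h1 : N (a + b - c) ≤ |1 + l| * N a + |k - 1| * N c := by
        have e : a + b - c = (1 + l) • a + (k - 1) • c := by rw [h]; module
        rw [e]; exact hN.lin2 _ _ _ _
      rw [abs_of_nonneg (by linarith : (0:ℝ) ≤ 1 + l),
        abs_of_nonpos (by linarith : k - 1 ≤ 0)] at h1
      nlinarith
    · have h1 := hN.exchange (l := -l) (m := -k) (by linarith) (by linarith) (by linarith)
        (by linarith) a c (-b) (by rw [h]; module)
      have h2 := hN.sub_le (a + b) c
      have h3 := hN.sub_le (b + c) a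
      have e1 : a - -b = a + b := by abel
      have e2 : c - -b = b + c := by abel
      have e4 : b + c - a = -a + b + c := by abel
      rw [e1, e2] at h1
      rw [e4] at h3
      linarith
  · -- a = l b + k c
    rw [abs_le] at hl hk
    rcases le_total 0 l with hl0 | hl0 <;> rcases le_total 0 k with hk0 | hk0
    · have h1 := hN.exchange hl0 hl.2 hk0 hk.2 b c a h
      rw [hN.sub_comm' c a, hN.sub_comm' b a] at h1
      linarith
    · have h1 : N (a - b + c) ≤ |l - 1| * N b + |1 + k| * N c := by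
        have e : a - b + c = (l - 1) • b + (1 + k) • c := by rw [h]; module
        rw [e]; exact hN.lin2 _ _ _ _
      rw [abs_of_nonpos (by linarith : l - 1 ≤ 0),
        abs_of_nonneg (by linarith : (0:ℝ) ≤ 1 + k)] at h1
      nlinarith
    · have h1 : N (a + b - c) ≤ |1 + l| * N b + |k - 1| * N c := by
        have e : a + b - c = (1 + l) • b + (k - 1) • c := by rw [h]; module
        rw [e]; exact hN.lin2 _ _ _ _
      rw [abs_of_nonneg (by linarith : (0:ℝ) ≤ 1 + l),
        abs_of_nonpos (by linarith : k - 1 ≤ 0)] at h1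
      nlinarith
    · have h1 := hN.exchange (l := -l) (m := -k) (by linarith) (by linarith) (by linarith)
        (by linarith) b c (-a) (by rw [h]; module)
      have h2 := hN.sub_le (a + b) c
      have h3 := hN.sub_le (a + c) b
      have e1 : b - -a = a + b := by abel
      have e2 : c - -a = a + c := by abel
      have e4 : a + c - b = a - b + c := by abel
      rw [e1, e2] at h1
      rw [e4] at h3
      linarith

/-- Two crossing segments. -/
lemma cross (a b c d : Fin 2 → ℝ) (s t u v R R' : ℝ) (hs : 0 ≤ s) (ht : 0 ≤ t)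
    (hu : 0 ≤ u) (hv : 0 ≤ v) (hst : s + t = u + v) (hpos : 0 < s + t)
    (hrel : s • a + t • b = u • c + v • d)
    (ha : N a ≤ R) (hb : N b ≤ R) (hc : N c ≤ R') (hd : N d ≤ R') :
    N (a + b - c - d) ≤ R + R' := by
  have e : (s + t) • (a + b - c - d) = (t • a + s • b) - (v • c + u • d) := by
    have : (s + t) • (a + b - c - d) = (s + t) • (a + b) - (u + v) • (c + d) := by
      rw [← hst]; module
    rw [this]
    have h2 : (s + t) • (a + b) = (s • a + t • b) + (t • a + s • b) := by module
    rw [h2, hrel]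
    module
  have h1 : N ((s + t) • (a + b - c - d)) ≤ (s + t) * (R + R') := by
    rw [e]
    have i1 := hN.sub_le (t • a + s • b) (v • c + u • d)
    have i2 := hN.lin2 t s a b
    have i3 := hN.lin2 v u c d
    rw [abs_of_nonneg hs, abs_of_nonneg ht] at i2
    rw [abs_of_nonneg hu, abs_of_nonneg hv] at i3
    have j1 := mul_le_mul_of_nonneg_left ha ht
    have j2 := mul_le_mul_of_nonneg_left hb hs
    have j3 := mul_le_mul_of_nonneg_left hc hv
    have j4 := mul_le_mul_of_nonneg_left hd hu
    have : (s + t) * (R + R') = t * R + s * R + (v * R' + u * R') := by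
      have : (s + t) * R' = (u + v) * R' := by rw [hst]
      linarith
    linarith
  rw [hN.hom, abs_of_pos hpos] at h1
  exact le_of_mul_le_mul_left h1 hpos

/-- A point of a triangle is a subconvex combination of two of the vertices. -/
lemma fan (a b c d : Fin 2 → ℝ) (s t u : ℝ) (hs : 0 ≤ s) (ht : 0 ≤ t) (hu : 0 ≤ u)
    (hsum : s + t + u = 1) (hd : d = s • a + t • b + u • c) (R : ℝ)
    (hab : N a + N b < 2 * R) (hac : N a + N c < 2 * R) (hbc : N b + N c < 2 * R)
    (hda : R ≤ N (a - d)) (hdb : R ≤ N (b - d)) (hdc : R ≤ N (c - d)) : False := by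
  -- relation with nonnegative coefficient sum
  obtain ⟨p, q, r, hne, hrel, hpqr⟩ : ∃ p q r : ℝ, (p ≠ 0 ∨ q ≠ 0 ∨ r ≠ 0) ∧
      p • a + q • b + r • c = 0 ∧ 0 ≤ p + q + r := by
    obtain ⟨p, q, r, hne, hrel⟩ := rel3 a b c
    rcases le_total 0 (p + q + r) with h | h
    · exact ⟨p, q, r, hne, hrel, h⟩
    · refine ⟨-p, -q, -r, ?_, ?_, by linarith⟩
      · simpa using hne
      · have : (-p) • a + (-q) • b + (-r) • c = -(p • a + q • b + r • c) := by module
        rw [this, hrel, neg_zero]
  let w : Fin 3 → ℝ := ![p, q, r]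
  let x : Fin 3 → ℝ := ![s, t, u]
  have hex : ∃ i, 0 < w i := by
    by_contra hcon
    push Not at hcon
    have h0 : p ≤ 0 := hcon 0
    have h1 : q ≤ 0 := hcon 1
    have h2 : r ≤ 0 := hcon 2
    rcases hne with h | h | h
    · exact h (le_antisymm h0 (by linarith))
    · exact h (le_antisymm h1 (by linarith))
    · exact h (le_antisymm h2 (by linarith))
  obtain ⟨i, hi, hmin⟩ := Finset.exists_min_image (Finset.univ.filter (fun i => 0 < w i))
    (fun i => x i / w i) (by obtain ⟨i, hi⟩ := hex; exact ⟨i, by simp [hi]⟩)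
  have hi' : 0 < w i := by simpa using hi
  have hx : ∀ j, 0 ≤ x j := by
    intro j
    fin_cases j
    · exact hs
    · exact ht
    · exact hu
  set τ := x i / w i with hτ
  have hτ0 : 0 ≤ τ := div_nonneg (hx i) hi'.le
  have hge : ∀ j, 0 ≤ x j - τ * w j := by
    intro j
    rcases lt_or_ge 0 (w j) with h | h
    · have := hmin j (by simp [h])
      have h2 : τ ≤ x j / w j := this
      rw [le_div_iff₀ h] at h2
      linarith
    · have : τ * w j ≤ 0 := mul_nonpos_of_nonneg_of_nonpos hτ0 h
      have := hx j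
      linarith
  have hzero : x i - τ * w i = 0 := by
    rw [hτ, div_mul_cancel₀ _ hi'.ne']; ring
  have hd' : d = (s - τ * p) • a + (t - τ * q) • b + (u - τ * r) • c := by
    have : (s - τ * p) • a + (t - τ * q) • b + (u - τ * r) • c
        = (s • a + t • b + u • c) - τ • (p • a + q • b + r • c) := by module
    rw [this, hrel, smul_zero, sub_zero, hd]
  have g0 : 0 ≤ s - τ * p := hge 0
  have g1 : 0 ≤ t - τ * q := hge 1
  have g2 : 0 ≤ u - τ * r := hge 2
  have gs : (s - τ * p) + (t - τ * q) + (u - τ * r) ≤ 1 := by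
    have : 0 ≤ τ * (p + q + r) := mul_nonneg hτ0 hpqr
    nlinarith
  have hcases : s - τ * p = 0 ∨ t - τ * q = 0 ∨ u - τ * r = 0 := by
    fin_cases i
    · left; exact hzero
    · right; left; exact hzero
    · right; right; exact hzero
  rcases hcases with h | h | h
  · have e : d = (t - τ * q) • b + (u - τ * r) • c := by rw [hd', h]; module
    have := hN.exchange g1 (by linarith) g2 (by linarith) b c d e
    linarith
  · have e : d = (s - τ * p) • a + (u - τ * r) • c := by rw [hd', h]; module
    have := hN.exchange g0 (by linarith) g2 (by linarith) a c d e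
    linarith
  · have e : d = (s - τ * p) • a + (t - τ * q) • b := by rw [hd', h]; module
    have := hN.exchange g0 (by linarith) g1 (by linarith) a b d e
    linarith

end IsNorm2

/-- Four points in the plane satisfy a nontrivial affine relation. -/
lemma aff4 (a b c d : Fin 2 → ℝ) :
    ∃ p q r s : ℝ, (p ≠ 0 ∨ q ≠ 0 ∨ r ≠ 0 ∨ s ≠ 0) ∧ p + q + r + s = 0 ∧
      p • a + q • b + r • c + s • d = 0 ∧ 0 ≤ p := by
  have main : ∃ p q r s : ℝ, (p ≠ 0 ∨ q ≠ 0 ∨ r ≠ 0 ∨ s ≠ 0) ∧ p + q + r + s = 0 ∧
      p • a + q • b + r • c + s • d = 0 := by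
    let v : Fin 4 → ((Fin 2 → ℝ) × ℝ) := ![(a, 1), (b, 1), (c, 1), (d, 1)]
    have hker : LinearMap.ker (Fintype.linearCombination ℝ v) ≠ ⊥ := by
      apply LinearMap.ker_ne_bot_of_finrank_lt
      simp
    obtain ⟨t, ht, ht0⟩ := (Submodule.ne_bot_iff _).1 hker
    refine ⟨t 0, t 1, t 2, t 3, ?_, ?_, ?_⟩
    · by_contra hcon
      push Not at hcon
      apply ht0
      ext i
      fin_cases i
      · exact hcon.1
      · exact hcon.2.1
      · exact hcon.2.2.1
      · exact hcon.2.2.2
    · rw [LinearMap.mem_ker, Fintype.linearCombination_apply, Fin.sum_univ_four] at ht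
      have := congrArg Prod.snd ht
      simpa [v] using this
    · rw [LinearMap.mem_ker, Fintype.linearCombination_apply, Fin.sum_univ_four] at ht
      have := congrArg Prod.fst ht
      simpa [v] using this
  obtain ⟨p, q, r, s, hne, hsum, hrel⟩ := main
  rcases le_total 0 p with h | h
  · exact ⟨p, q, r, s, hne, hsum, hrel, h⟩
  · refine ⟨-p, -q, -r, -s, ?_, by linarith, ?_, by linarith⟩
    · simpa using hne
    · have : (-p) • a + (-q) • b + (-r) • c + (-s) • d = -(p • a + q • b + r • c + s • d) := by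
        module
      rw [this, hrel, neg_zero]

end Pool.Agent.Helper54
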