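import Pool.Agent.Lib.Helper54.BestApproxRecord

set_option autoImplicit false

namespace Pool.Agent.Helper54

lemma cls_eq_of_add_eq_zero {a b : ZMod 2 × ZMod 2 × ZMod 2} (h : a + b = 0) : a = b := by
  have hb : b + b = 0 := by
    ext <;> simp <;> exact CharTwo.add_self_eq_zero _
  calc a = a + (b + b) := by rw [hb, add_zero]
    _ = (a + b) + b := by rw [add_assoc]
    _ = b := by rw [h, zero_add]

lemma add_self_cls (a : ZMod 2 × ZMod 2 × ZMod 2) : a + a = 0 := by
  ext <;> simp <;> exact CharTwo.add_self_eq_zero _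

/-- Boolean form: three independent points of the Fano plane span everything. -/
def spanOk (a b c d : ZMod 2 × ZMod 2 × ZMod 2) : Bool :=
  a == 0 || b == 0 || c == 0 || d == 0 ||
    a + b == 0 || a + c == 0 || b + c == 0 || a + b + c == 0 ||
    a + d == 0 || b + d == 0 || c + d == 0 || a + b + d == 0 || a + c + d == 0 ||
    b + c + d == 0 || a + b + c + d == 0

lemma spanOk_true : ∀ a b c d : ZMod 2 × ZMod 2 × ZMod 2, spanOk a b c d = true := by
  decide +kernel

lemma span_cases {a b c d : ZMod 2 × ZMod 2 × ZMod 2} (ha : a ≠ 0) (hb : b ≠ 0) (hc : c ≠ 0)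
    (hd : d ≠ 0) (hab : a + b ≠ 0) (hac : a + c ≠ 0) (hbc : b + c ≠ 0) (habc : a + b + c ≠ 0) :
    a + d = 0 ∨ b + d = 0 ∨ c + d = 0 ∨ a + b + d = 0 ∨ a + c + d = 0 ∨ b + c + d = 0 ∨
      a + b + c + d = 0 := by
  have := spanOk_true a b c d
  simp only [spanOk, Bool.or_eq_true, beq_iff_eq] at this
  tauto

namespace BASeq

variable {N : (Fin 2 → ℝ) → ℝ} {X : (Fin 3 → ℤ) →+ ℤ} {E : (Fin 3 → ℤ) →+ (Fin 2 → ℝ)}
  {z : ℕ → Fin 3 → ℤ} (h : BASeq N X E z)
include h

/-- Classes at a violation. -/
lemma viol_classes (n : ℕ) (hV : X (z (n + 3)) < X (z (n + 1)) + X (z n)) :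
    cls (z n) + cls (z (n + 1)) ≠ 0 ∧ cls (z n) + cls (z (n + 2)) ≠ 0 ∧
      cls (z (n + 1)) + cls (z (n + 2)) ≠ 0 ∧
      cls (z n) + cls (z (n + 1)) + cls (z (n + 2)) ≠ 0 := by
  have x01 := h.x_lt (show n < n + 1 by omega)
  have x12 := h.x_lt (show n + 1 < n + 2 by omega)
  have x23 := h.x_lt (show n + 2 < n + 3 by omega)
  have x0 := h.x_pos n
  refine ⟨?_, ?_, ?_, ?_⟩
  · intro hc
    have h1 := h.same_cls (show n < n + 1 by omega) hc
    omega
  · intro hc
    have h1 := h.same_cls (show n < n + 2 by omega) hc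
    omega
  · intro hc
    have h1 := h.same_cls (show n + 1 < n + 2 by omega) hc
    have h2 : X (z (n + 1)) + 2 * X (z (n + 2)) ≤ X (z (n + 2)) := h1
    omega
  · intro hc
    have h1 := h.fano_line (show n < n + 1 by omega) (show n + 1 < n + 2 by omega) hc
    omega

/-- Ties: a vector of the same height as a best approximation is much longer. -/
lemma tie (hz : ∀ w : Fin 3 → ℤ, w ≠ 0 → X w = 0 → 3 * N (E (z 0)) ≤ N (E w)) (n m : ℕ)
    (w : Fin 3 → ℤ) (hw : w ≠ z n) (hX : X w = X (z n)) : N (E (z m)) ≤ N (E w) := by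
  have h1 := hz (w - z n) (sub_ne_zero.2 hw) (by rw [map_sub, hX, sub_self])
  have h2 : N (E (w - z n)) ≤ N (E w) + N (E (z n)) := by
    rw [map_sub]; exact h.norm.sub_le _ _
  have h3 := h.r_le (Nat.zero_le n)
  have h4 := h.r_le (Nat.zero_le m)
  have h5 := h.r_pos 0
  linarith

/-- Nonzero vectors of height at most that of `z (n + 1)`, other than `z (n + 1)` itself. -/
lemma best_le (hz : ∀ w : Fin 3 → ℤ, w ≠ 0 → X w = 0 → 3 * N (E (z 0)) ≤ N (E w)) (n : ℕ)
    (w : Fin 3 → ℤ) (hw : w ≠ z (n + 1)) (h0 : 0 < X w) (hX : X w ≤ X (z (n + 1))) :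
    N (E (z n)) ≤ N (E w) := by
  rcases lt_or_eq_of_le hX with hlt | heq
  · exact h.best n w (by rintro rfl; rw [map_zero] at h0; omega) (by rw [abs_of_pos h0]; exact hlt)
  · exact h.tie hz (n + 1) n w hw heq

/-- The quadratic parallelogram law transported to integer vectors. -/
lemma qpar (hpar : ∀ x y, N (x + y) ^ 2 + N (x - y) ^ 2 = 2 * N x ^ 2 + 2 * N y ^ 2)
    (a b : Fin 3 → ℤ) : N (E (a + b)) ^ 2 + N (E (a - b)) ^ 2
      = 2 * N (E a) ^ 2 + 2 * N (E b) ^ 2 := by
  rw [map_add, map_sub]; exact hpar _ _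

lemma sq_le {a b : Fin 3 → ℤ} (hab : N (E a) ≤ N (E b)) : N (E a) ^ 2 ≤ N (E b) ^ 2 :=
  pow_le_pow_left₀ (h.norm.nonneg _) hab 2

lemma sq_lt {a b : Fin 3 → ℤ} (hab : N (E a) < N (E b)) : N (E a) ^ 2 < N (E b) ^ 2 :=
  pow_lt_pow_left₀ hab (h.norm.nonneg _) (by norm_num)

lemma q_half {w v : Fin 3 → ℤ} (hw : w = v + v) : N (E w) ^ 2 = 4 * N (E v) ^ 2 := by
  rw [h.N_half hw]; ring

/-- The three-vector identity. -/
lemma qtri (hpar : ∀ x y, N (x + y) ^ 2 + N (x - y) ^ 2 = 2 * N x ^ 2 + 2 * N y ^ 2)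
    (a p q : Fin 3 → ℤ) :
    N (E p) ^ 2 + N (E q) ^ 2 + N (E (a + p)) ^ 2 + N (E (a + q)) ^ 2
      = N (E (p - q)) ^ 2 + N (E a) ^ 2 + N (E (a + p + q)) ^ 2 := by
  have h1 := h.qpar hpar p q
  have h2 := h.qpar hpar (a + p) (a + q)
  have h3 := h.qpar hpar (a + p + q) a
  have e1 : a + p - (a + q) = p - q := by abel
  have e2 : a + p + q - a = p + q := by abel
  have e3 : a + p + q + a = a + p + (a + q) := by abel
  rw [e1] at h2
  rw [e2, e3] at h3
  linarith

/-- **Euclidean norms**: at a violation the first side of the parallelogram is not lower than the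
best approximation two steps before. -/
theorem euclid_viol
    (hpar : ∀ x y, N (x + y) ^ 2 + N (x - y) ^ 2 = 2 * N x ^ 2 + 2 * N y ^ 2)
    (hz : ∀ w : Fin 3 → ℤ, w ≠ 0 → X w = 0 → 3 * N (E (z 0)) ≤ N (E w)) (n : ℕ)
    (hV : X (z (n + 6)) < X (z (n + 4)) + X (z (n + 3))) :
    X (z (n + 1)) ≤ X (z (n + 4)) - X (z (n + 3)) := by
  by_contra hcon
  have hcon := not_le.1 hcon
  have hrel : z (n + 3) + z (n + 6) = z (n + 4) + z (n + 5) := h.viol (n + 3) hV
  obtain ⟨k01, k02, k12, k012⟩ := h.viol_classes (n + 3) hV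
  have k01 : cls (z (n + 3)) + cls (z (n + 4)) ≠ 0 := k01
  have k02 : cls (z (n + 3)) + cls (z (n + 5)) ≠ 0 := k02
  have k12 : cls (z (n + 4)) + cls (z (n + 5)) ≠ 0 := k12
  have k012 : cls (z (n + 3)) + cls (z (n + 4)) + cls (z (n + 5)) ≠ 0 := k012
  -- names: B = z(n+1), C = z(n+2), D0 .. D3 = z(n+3) .. z(n+6)
  have xAB := h.x_lt (show n < n + 1 by omega)
  have xBC := h.x_lt (show n + 1 < n + 2 by omega)
  have xC0 := h.x_lt (show n + 2 < n + 3 by omega)
  have x01 := h.x_lt (show n + 3 < n + 4 by omega)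
  have x12 := h.x_lt (show n + 4 < n + 5 by omega)
  have x23 := h.x_lt (show n + 5 < n + 6 by omega)
  have xA := h.x_pos n
  have qAB := h.sq_lt (h.r_lt (show n < n + 1 by omega))
  have qBC := h.sq_lt (h.r_lt (show n + 1 < n + 2 by omega))
  have qC0 := h.sq_lt (h.r_lt (show n + 2 < n + 3 by omega))
  have q01 := h.sq_lt (h.r_lt (show n + 3 < n + 4 by omega))
  have q12 := h.sq_lt (h.r_lt (show n + 4 < n + 5 by omega))
  have q23 := h.sq_lt (h.r_lt (show n + 5 < n + 6 by omega))
  have q3pos : 0 < N (E (z (n + 6))) ^ 2 := pow_pos (h.r_pos _) 2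
  have hxrel : X (z (n + 3)) + X (z (n + 6)) = X (z (n + 4)) + X (z (n + 5)) := by
    rw [← map_add, ← map_add, hrel]
  -- no violation just before
  have hno : X (z (n + 3)) + X (z (n + 2)) ≤ X (z (n + 5)) := by
    by_contra hh
    exact h.no_two_viol (n + 2) (not_le.1 hh) hV
  have ne0 : ∀ t : Fin 3 → ℤ, X t ≠ 0 → t ≠ 0 := by
    rintro t ht rfl; exact ht (map_zero X)
  -- heights of u, v, b
  have hXu : X (z (n + 4) - z (n + 3)) = X (z (n + 4)) - X (z (n + 3)) := map_sub _ _ _
  have hXv : X (z (n + 5) - z (n + 3)) = X (z (n + 5)) - X (z (n + 3)) := map_sub _ _ _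
  have hXb : X (z (n + 5) - z (n + 4)) = X (z (n + 5)) - X (z (n + 4)) := map_sub _ _ _
  -- norms of u, v
  have qu : N (E (z n)) ^ 2 ≤ N (E (z (n + 4) - z (n + 3))) ^ 2 :=
    h.sq_le (h.best n _ (ne0 _ (by omega)) (by rw [abs_of_pos (by omega)]; omega))
  have qv : N (E (z (n + 2))) ^ 2 ≤ N (E (z (n + 5) - z (n + 3))) ^ 2 :=
    h.sq_le (h.best (n + 2) _ (ne0 _ (by omega))
      (by rw [abs_of_pos (by omega)]; show _ < X (z (n + 3)); omega))
  -- planar identities of the parallelogram
  have p1 := h.qpar hpar (z (n + 4)) (z (n + 5))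
  have p2 := h.qpar hpar (z (n + 3)) (z (n + 6))
  have p3 := h.qpar hpar (z (n + 4) - z (n + 3)) (z (n + 5) - z (n + 3))
  have e1 : z (n + 4) - z (n + 3) + (z (n + 5) - z (n + 3)) = z (n + 6) - z (n + 3) := by
    have : z (n + 6) = z (n + 4) + z (n + 5) - z (n + 3) := by rw [← hrel]; abel
    rw [this]; abel
  have e2 : z (n + 4) - z (n + 3) - (z (n + 5) - z (n + 3)) = z (n + 4) - z (n + 5) := by abel
  have e3 : N (E (z (n + 3) - z (n + 6))) = N (E (z (n + 6) - z (n + 3))) := by
    rw [← neg_sub, map_neg, h.norm.neg]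
  have e4 : N (E (z (n + 4) - z (n + 5))) = N (E (z (n + 5) - z (n + 4))) := by
    rw [← neg_sub, map_neg, h.norm.neg]
  rw [e1, e2, e4] at p3
  rw [hrel, e3] at p2
  rw [e4] at p1
  have qm : 0 ≤ N (E (z (n + 4) + z (n + 5))) ^ 2 := sq_nonneg _
  -- b is longer than u
  have qb : N (E (z (n + 4) - z (n + 3))) ^ 2 < N (E (z (n + 5) - z (n + 4))) ^ 2 := by
    linarith
  -- the classes of C
  have kC := h.cls_ne (n + 2)
  have kB := h.cls_ne (n + 1)
  have k0 := h.cls_ne (n + 3)
  have k1 := h.cls_ne (n + 4)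
  have k2 := h.cls_ne (n + 5)
  have hC : z (n + 2) = z (n + 5) - z (n + 3) := by
    rcases span_cases k0 k1 k2 kC k01 k02 k12 k012 with hc | hc | hc | hc | hc | hc | hc
    · exfalso
      have := h.same_cls (show n + 2 < n + 3 by omega) (by rw [add_comm]; exact hc)
      have : X (z (n + 2)) + 2 * X (z (n + 3)) ≤ X (z (n + 3)) := this
      omega
    · exfalso
      have := h.same_cls (show n + 2 < n + 4 by omega) (by rw [add_comm]; exact hc)
      have : X (z (n + 2)) + 2 * X (z (n + 3)) ≤ X (z (n + 4)) := this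
      omega
    · exfalso
      have := h.same_cls (show n + 2 < n + 5 by omega) (by rw [add_comm]; exact hc)
      have : X (z (n + 2)) + 2 * X (z (n + 3)) ≤ X (z (n + 5)) := this
      omega
    · exfalso
      have := h.fano_line (show n + 2 < n + 3 by omega) (show n + 3 < n + 4 by omega)
        (by rw [← hc]; abel)
      omega
    · -- class of v
      obtain ⟨w, hw⟩ := half_of_cls (w := z (n + 5) - z (n + 3) - z (n + 2))
        (by rw [cls_sub, cls_sub, ← hc]; abel)
      by_cases hw0 : w = 0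
      · rw [hw0, add_zero, sub_eq_zero] at hw
        exact hw.symm
      · exfalso
        have xw : X (z (n + 5) - z (n + 3) - z (n + 2)) = 2 * X w := X_half hw
        rw [map_sub, map_sub] at xw
        -- p = w, q = w + C, a = D0 ; a + p + q = D2
        have t := h.qtri hpar (z (n + 3)) w (w + z (n + 2))
        have e5 : w - (w + z (n + 2)) = -z (n + 2) := by abel
        have e6 : z (n + 3) + w + (w + z (n + 2)) = z (n + 5) := by
          have : z (n + 5) = z (n + 3) + z (n + 2) + (w + w) := by rw [← hw]; abel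
          rw [this]; abel
        rw [e5, e6, map_neg, h.norm.neg] at t
        have b1 := h.sq_le (h.best (n + 2) w hw0
          (by rw [abs_of_nonneg (by omega)]; show X w < X (z (n + 3)); omega))
        have xq : X (w + z (n + 2)) = X w + X (z (n + 2)) := map_add _ _ _
        have b2 := h.sq_le (h.best (n + 2) (w + z (n + 2)) (ne0 _ (by omega))
          (by rw [abs_of_pos (by omega)]; show _ < X (z (n + 3)); omega))
        have xr : X (z (n + 3) + w) = X (z (n + 3)) + X w := map_add _ _ _
        have b3 := h.sq_le (h.best (n + 4) (z (n + 3) + w) (ne0 _ (by omega))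
          (by rw [abs_of_pos (by omega)]; show _ < X (z (n + 5)); omega))
        have b4 : 0 ≤ N (E (z (n + 3) + (w + z (n + 2)))) ^ 2 := sq_nonneg _
        linarith
    · -- class of b
      exfalso
      have hf := h.fano_line (show n + 2 < n + 4 by omega) (show n + 4 < n + 5 by omega)
        (by rw [← hc]; abel)
      obtain ⟨w, hw⟩ := half_of_cls (w := z (n + 5) - z (n + 4) - z (n + 2))
        (by rw [cls_sub, cls_sub, ← hc]; abel)
      by_cases hw0 : w = 0
      · rw [hw0, add_zero, sub_eq_zero] at hw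
        have : N (E (z (n + 5) - z (n + 4))) ^ 2 = N (E (z (n + 2))) ^ 2 := by rw [hw]
        linarith
      · have xw : X (z (n + 5) - z (n + 4) - z (n + 2)) = 2 * X w := X_half hw
        rw [map_sub, map_sub] at xw
        have t := h.qtri hpar (z (n + 4)) w (w + z (n + 2))
        have e5 : w - (w + z (n + 2)) = -z (n + 2) := by abel
        have e6 : z (n + 4) + w + (w + z (n + 2)) = z (n + 5) := by
          have : z (n + 5) = z (n + 4) + z (n + 2) + (w + w) := by rw [← hw]; abel
          rw [this]; abel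
        rw [e5, e6, map_neg, h.norm.neg] at t
        have b1 := h.sq_le (h.best (n + 2) w hw0
          (by rw [abs_of_nonneg (by omega)]; show X w < X (z (n + 3)); omega))
        have xq : X (w + z (n + 2)) = X w + X (z (n + 2)) := map_add _ _ _
        have b2 := h.sq_le (h.best (n + 2) (w + z (n + 2)) (ne0 _ (by omega))
          (by rw [abs_of_pos (by omega)]; show _ < X (z (n + 3)); omega))
        have xr : X (z (n + 4) + w) = X (z (n + 4)) + X w := map_add _ _ _
        have b3 := h.sq_le (h.best (n + 4) (z (n + 4) + w) (ne0 _ (by omega))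
          (by rw [abs_of_pos (by omega)]; show _ < X (z (n + 5)); omega))
        have b4 : 0 ≤ N (E (z (n + 4) + (w + z (n + 2)))) ^ 2 := sq_nonneg _
        linarith
    · exfalso
      -- class of D3
      have h3 : cls (z (n + 3)) + cls (z (n + 4)) + cls (z (n + 5)) = cls (z (n + 6)) := by
        have e : cls (z (n + 3)) + cls (z (n + 6)) = cls (z (n + 4)) + cls (z (n + 5)) := by
          rw [← cls_add, ← cls_add, hrel]
        apply cls_eq_of_add_eq_zero
        have e' : cls (z (n + 3)) + cls (z (n + 4)) + cls (z (n + 5)) + cls (z (n + 6))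
            = (cls (z (n + 3)) + cls (z (n + 6))) + (cls (z (n + 4)) + cls (z (n + 5))) := by abel
        rw [e', e, add_self_cls]
      rw [h3] at hc
      have := h.same_cls (show n + 2 < n + 6 by omega) (by rw [add_comm]; exact hc)
      have : X (z (n + 2)) + 2 * X (z (n + 3)) ≤ X (z (n + 6)) := this
      omega
  have hqC : N (E (z (n + 5) - z (n + 3))) ^ 2 = N (E (z (n + 2))) ^ 2 := by rw [hC]
  have hxC : X (z (n + 2)) = X (z (n + 5)) - X (z (n + 3)) := by rw [hC, map_sub]
  -- upper bound for the norm of B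
  have hK : N (E (z (n + 1))) ^ 2 < N (E (z (n + 3))) ^ 2 + N (E (z (n + 4))) ^ 2
      + N (E (z (n + 5))) ^ 2 + N (E (z (n + 6))) ^ 2 - N (E (z (n + 2))) ^ 2 := by
    linarith
  have hxBp := h.x_pos (n + 1)
  rcases span_cases k0 k1 k2 kB k01 k02 k12 k012 with hc | hc | hc | hc | hc | hc | hc
  · -- class of D0
    obtain ⟨w, hw⟩ := half_of_cls (w := z (n + 3) - z (n + 1)) (by rw [cls_sub]; exact hc)
    have xw : X (z (n + 3) - z (n + 1)) = 2 * X w := X_half hw
    rw [map_sub] at xw
    have xw2 : X (w + z (n + 1)) = X w + X (z (n + 1)) := map_add _ _ _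
    have t := h.qpar hpar (w + z (n + 1)) w
    have e5 : w + z (n + 1) + w = z (n + 3) := by
      have : z (n + 3) = z (n + 1) + (w + w) := by rw [← hw]; abel
      rw [this]; abel
    have e6 : w + z (n + 1) - w = z (n + 1) := by abel
    rw [e5, e6] at t
    have b1 := h.sq_le (h.best (n + 2) w (ne0 _ (by omega))
      (by rw [abs_of_pos (by omega)]; show X w < X (z (n + 3)); omega))
    have b2 := h.sq_le (h.best (n + 2) (w + z (n + 1)) (ne0 _ (by omega))
      (by rw [abs_of_pos (by omega)]; show _ < X (z (n + 3)); omega))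
    linarith
  · -- class of D1
    have hf := h.same_cls (show n + 1 < n + 4 by omega) (by rw [add_comm]; exact hc)
    have hf : X (z (n + 1)) + 2 * X (z (n + 2)) ≤ X (z (n + 4)) := hf
    obtain ⟨w, hw⟩ := half_of_cls (w := z (n + 4) - z (n + 1)) (by rw [cls_sub]; exact hc)
    have xw : X (z (n + 4) - z (n + 1)) = 2 * X w := X_half hw
    rw [map_sub] at xw
    have xw2 : X (w + z (n + 1)) = X w + X (z (n + 1)) := map_add _ _ _
    have t := h.qpar hpar (w + z (n + 1)) w
    have e5 : w + z (n + 1) + w = z (n + 4) := by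
      have : z (n + 4) = z (n + 1) + (w + w) := by rw [← hw]; abel
      rw [this]; abel
    have e6 : w + z (n + 1) - w = z (n + 1) := by abel
    rw [e5, e6] at t
    have b1 := h.sq_le (h.best (n + 2) w (ne0 _ (by omega))
      (by rw [abs_of_pos (by omega)]; show X w < X (z (n + 3)); omega))
    have b2 := h.sq_le (h.best (n + 2) (w + z (n + 1)) (ne0 _ (by omega))
      (by rw [abs_of_pos (by omega)]; show _ < X (z (n + 3)); omega))
    linarith
  · -- class of D2
    have hf := h.same_cls (show n + 1 < n + 5 by omega) (by rw [add_comm]; exact hc)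
    have hf : X (z (n + 1)) + 2 * X (z (n + 2)) ≤ X (z (n + 5)) := hf
    obtain ⟨w, hw⟩ := half_of_cls (w := z (n + 5) - z (n + 1)) (by rw [cls_sub]; exact hc)
    have xw : X (z (n + 5) - z (n + 1)) = 2 * X w := X_half hw
    rw [map_sub] at xw
    have xw2 : X (w + z (n + 1)) = X w + X (z (n + 1)) := map_add _ _ _
    have t := h.qpar hpar (w + z (n + 1)) w
    have e5 : w + z (n + 1) + w = z (n + 5) := by
      have : z (n + 5) = z (n + 1) + (w + w) := by rw [← hw]; abel
      rw [this]; abel
    have e6 : w + z (n + 1) - w = z (n + 1) := by abel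
    rw [e5, e6] at t
    have b1 := h.sq_le (h.best (n + 2) w (ne0 _ (by omega))
      (by rw [abs_of_pos (by omega)]; show X w < X (z (n + 3)); omega))
    by_cases h0 : w + z (n + 1) = z (n + 3)
    · -- B = D0 - v
      have t2 := h.qpar hpar (z (n + 3)) (z (n + 5) - z (n + 3))
      have e7 : z (n + 3) + (z (n + 5) - z (n + 3)) = z (n + 5) := by abel
      have e8 : z (n + 3) - (z (n + 5) - z (n + 3)) = z (n + 1) := by
        rw [← e5, h0]
        have : w = z (n + 3) - z (n + 1) := by rw [← h0]; abel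
        rw [this]; abel
      rw [e7, e8] at t2
      linarith
    · have b2 := h.sq_le (h.best_le hz (n + 2) (w + z (n + 1)) h0 (by omega)
        (by show X (w + z (n + 1)) ≤ X (z (n + 3)); omega))
      linarith
  · -- class of u
    have hf := h.fano_line (show n + 1 < n + 3 by omega) (show n + 3 < n + 4 by omega)
      (by rw [← hc]; abel)
    omega
  · -- class of C
    have e5 : cls (z (n + 1)) + cls (z (n + 2)) = 0 := by
      rw [hC, cls_sub, ← hc]; abel
    have hf := h.same_cls (show n + 1 < n + 2 by omega) e5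
    have hf : X (z (n + 1)) + 2 * X (z (n + 2)) ≤ X (z (n + 2)) := hf
    omega
  · -- class of b
    have hf := h.fano_line (show n + 1 < n + 4 by omega) (show n + 4 < n + 5 by omega)
      (by rw [← hc]; abel)
    obtain ⟨w, hw⟩ := half_of_cls (w := z (n + 5) - z (n + 4) - z (n + 1))
      (by rw [cls_sub, cls_sub, ← hc]; abel)
    by_cases hw0 : w = 0
    · rw [hw0, add_zero, sub_eq_zero] at hw
      have : N (E (z (n + 5) - z (n + 4))) ^ 2 = N (E (z (n + 1))) ^ 2 := by rw [hw]
      linarith
    · have xw : X (z (n + 5) - z (n + 4) - z (n + 1)) = 2 * X w := X_half hw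
      rw [map_sub, map_sub] at xw
      have t := h.qtri hpar (z (n + 4)) w (w + z (n + 1))
      have e5 : w - (w + z (n + 1)) = -z (n + 1) := by abel
      have e6 : z (n + 4) + w + (w + z (n + 1)) = z (n + 5) := by
        have : z (n + 5) = z (n + 4) + z (n + 1) + (w + w) := by rw [← hw]; abel
        rw [this]; abel
      rw [e5, e6, map_neg, h.norm.neg] at t
      have b1 := h.sq_le (h.best (n + 1) w hw0
        (by rw [abs_of_nonneg (by omega)]; show X w < X (z (n + 2)); omega))
      have xq : X (w + z (n + 1)) = X w + X (z (n + 1)) := map_add _ _ _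
      have b2 := h.sq_le (h.best (n + 1) (w + z (n + 1)) (ne0 _ (by omega))
        (by rw [abs_of_pos (by omega)]; show _ < X (z (n + 2)); omega))
      have xr : X (z (n + 4) + w) = X (z (n + 4)) + X w := map_add _ _ _
      have b3 := h.sq_le (h.best (n + 4) (z (n + 4) + w) (ne0 _ (by omega))
        (by rw [abs_of_pos (by omega)]; show _ < X (z (n + 5)); omega))
      have b4 : 0 ≤ N (E (z (n + 4) + (w + z (n + 1)))) ^ 2 := sq_nonneg _
      linarith
  · -- class of D3
    have h3 : cls (z (n + 3)) + cls (z (n + 4)) + cls (z (n + 5)) = cls (z (n + 6)) := by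
      have e : cls (z (n + 3)) + cls (z (n + 6)) = cls (z (n + 4)) + cls (z (n + 5)) := by
        rw [← cls_add, ← cls_add, hrel]
      apply cls_eq_of_add_eq_zero
      have e' : cls (z (n + 3)) + cls (z (n + 4)) + cls (z (n + 5)) + cls (z (n + 6))
          = (cls (z (n + 3)) + cls (z (n + 6))) + (cls (z (n + 4)) + cls (z (n + 5))) := by abel
      rw [e', e, add_self_cls]
    rw [h3] at hc
    have hf := h.same_cls (show n + 1 < n + 6 by omega) (by rw [add_comm]; exact hc)
    have hf : X (z (n + 1)) + 2 * X (z (n + 2)) ≤ X (z (n + 6)) := hf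
    obtain ⟨w, hw⟩ := half_of_cls (w := z (n + 6) - z (n + 1)) (by rw [cls_sub]; exact hc)
    have xw : X (z (n + 6) - z (n + 1)) = 2 * X w := X_half hw
    rw [map_sub] at xw
    have xw2 : X (w + z (n + 1)) = X w + X (z (n + 1)) := map_add _ _ _
    have t := h.qpar hpar (w + z (n + 1)) w
    have e5 : w + z (n + 1) + w = z (n + 6) := by
      have : z (n + 6) = z (n + 1) + (w + w) := by rw [← hw]; abel
      rw [this]; abel
    have e6 : w + z (n + 1) - w = z (n + 1) := by abel
    rw [e5, e6] at t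
    have b1 := h.sq_le (h.best (n + 2) w (ne0 _ (by omega))
      (by rw [abs_of_pos (by omega)]; show X w < X (z (n + 3)); omega))
    by_cases h0 : w + z (n + 1) = z (n + 4)
    · -- B = D1 - v
      have t2 := h.qpar hpar (z (n + 4)) (z (n + 5) - z (n + 3))
      have e7 : z (n + 4) + (z (n + 5) - z (n + 3)) = z (n + 6) := by
        have : z (n + 6) = z (n + 4) + z (n + 5) - z (n + 3) := by rw [← hrel]; abel
        rw [this]; abel
      have e8 : z (n + 4) - (z (n + 5) - z (n + 3)) = z (n + 1) := by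
        have h1 : z (n + 5) - z (n + 3) = z (n + 6) - z (n + 4) := by rw [← e7]; abel
        have : w = z (n + 4) - z (n + 1) := by rw [← h0]; abel
        rw [h1, ← e5, h0, this]; abel
      rw [e7, e8] at t2
      linarith
    · have b2 := h.sq_le (h.best_le hz (n + 3) (w + z (n + 1)) h0 (by omega)
        (by show X (w + z (n + 1)) ≤ X (z (n + 4)); omega))
      linarith

end BASeq

end Pool.Agent.Helper54
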