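import Pool.Agent.Lib.Helper54.BestApproxEuclid

set_option autoImplicit false

namespace Pool.Agent.Helper54

open Filter

lemma phi_gt_one {φ : ℝ} (hφ : φ ^ 3 = φ + 1) : 1 < φ := by
  by_contra hcon
  have hcon := not_lt.1 hcon
  rcases le_total 0 φ with h0 | h0
  · nlinarith [mul_nonneg h0 h0, mul_nonneg (mul_nonneg h0 h0) h0]
  · rcases le_total (-1) φ with h1 | h1
    · nlinarith [mul_nonneg (sub_nonneg.2 h1) (neg_nonneg.2 h0), sq_nonneg φ, sq_nonneg (φ + 1)]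
    · have h2 : 0 ≤ -1 - φ := by linarith
      nlinarith [mul_nonneg h2 h2, mul_nonneg (mul_nonneg h2 h2) h2]

/-- Exponential growth at rate `φ` from the two kinds of steps. -/
theorem growth_of_steps (x : ℕ → ℕ) (n0 : ℕ) (hpos : ∀ n, 0 < x n) (hmono : StrictMono x)
    (hstep : ∀ n, n0 ≤ n → x (n + 4) + x (n + 3) ≤ x (n + 6) ∨
      (x (n + 3) + x (n + 6) = x (n + 4) + x (n + 5) ∧ x (n + 1) + x (n + 3) ≤ x (n + 4) ∧
        x (n + 2) + x (n + 3) ≤ x (n + 5) ∧ x (n + 2) ≤ x (n + 3)))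
    (φ : ℝ) (hφ : φ ^ 3 = φ + 1) (c : ℝ) (hc : 0 < c) (hcφ : c < φ) :
    ∀ᶠ n in atTop, c ^ n < (x n : ℝ) := by
  have h1φ := phi_gt_one hφ
  have hφ0 : 0 < φ := by linarith
  set P : ℕ → ℝ := fun n => x n + φ ^ 2 * x (n + 1) + φ * x (n + 2) with hP
  have hPpos : ∀ n, 0 < P n := by
    intro n
    have := hpos n
    have h1 : (0:ℝ) < x n := by exact_mod_cast this
    have h2 : (0:ℝ) ≤ x (n + 1) := by positivity
    have h3 : (0:ℝ) ≤ x (n + 2) := by positivity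
    simp only [hP]; positivity
  have hstepP : ∀ n, n0 ≤ n → φ * P (n + 3) ≤ P (n + 4) ∨ φ ^ 3 * P (n + 1) ≤ P (n + 4) := by
    intro n hn
    rcases hstep n hn with h | ⟨h1, h2, h3, h4⟩
    · left
      have h' : (x (n + 4) : ℝ) + x (n + 3) ≤ x (n + 6) := by exact_mod_cast h
      show φ * ((x (n + 3) : ℝ) + φ ^ 2 * x (n + 4) + φ * x (n + 5))
        ≤ x (n + 4) + φ ^ 2 * x (n + 5) + φ * x (n + 6)
      have : φ * ((x (n + 3) : ℝ) + φ ^ 2 * x (n + 4) + φ * x (n + 5))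
        = φ * x (n + 3) + φ ^ 3 * x (n + 4) + φ ^ 2 * x (n + 5) := by ring
      rw [this, hφ]
      nlinarith
    · right
      have h1' : (x (n + 3) : ℝ) + x (n + 6) = x (n + 4) + x (n + 5) := by exact_mod_cast h1
      have h2' : (x (n + 1) : ℝ) + x (n + 3) ≤ x (n + 4) := by exact_mod_cast h2
      have h3' : (x (n + 2) : ℝ) + x (n + 3) ≤ x (n + 5) := by exact_mod_cast h3
      have h4' : (x (n + 2) : ℝ) ≤ x (n + 3) := by exact_mod_cast h4
      show φ ^ 3 * ((x (n + 1) : ℝ) + φ ^ 2 * x (n + 2) + φ * x (n + 3))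
        ≤ x (n + 4) + φ ^ 2 * x (n + 5) + φ * x (n + 6)
      have e6 : (x (n + 6) : ℝ) = x (n + 4) + x (n + 5) - x (n + 3) := by linarith
      rw [e6]
      -- difference = φ^3 (x4 - x3 - x1) + (φ + φ^2) (x5 - x3 - x2) + ... 
      have key : (x (n + 4) : ℝ) + φ ^ 2 * x (n + 5) + φ * (x (n + 4) + x (n + 5) - x (n + 3))
          - φ ^ 3 * ((x (n + 1) : ℝ) + φ ^ 2 * x (n + 2) + φ * x (n + 3))
          = φ ^ 3 * ((x (n + 4) : ℝ) - x (n + 3) - x (n + 1))
            + (φ + φ ^ 2) * ((x (n + 5) : ℝ) - x (n + 3) - x (n + 2))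
            + (φ ^ 2 * (φ ^ 2 - 1) - (φ - 1)) * 0
            + (φ ^ 3 + φ ^ 2 - φ ^ 4) * ((x (n + 3) : ℝ) - x (n + 2)) := by
        have e4 : φ ^ 4 = φ ^ 2 + φ := by
          have : φ ^ 4 = φ * φ ^ 3 := by ring
          rw [this, hφ]; ring
        have e5 : φ ^ 5 = φ ^ 2 + φ + 1 := by
          have : φ ^ 5 = φ * φ ^ 4 := by ring
          rw [this, e4]
          have : φ * (φ ^ 2 + φ) = φ ^ 3 + φ ^ 2 := by ring
          rw [this, hφ]; ring
        have e : φ ^ 3 * ((x (n + 1) : ℝ) + φ ^ 2 * x (n + 2) + φ * x (n + 3))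
            = φ ^ 3 * x (n + 1) + φ ^ 5 * x (n + 2) + φ ^ 4 * x (n + 3) := by ring
        rw [e, e5, e4, hφ]
        ring
      have e4 : φ ^ 4 = φ ^ 2 + φ := by
        have : φ ^ 4 = φ * φ ^ 3 := by ring
        rw [this, hφ]; ring
      have k1 : 0 ≤ φ ^ 3 * ((x (n + 4) : ℝ) - x (n + 3) - x (n + 1)) :=
        mul_nonneg (by positivity) (by linarith)
      have k2 : 0 ≤ (φ + φ ^ 2) * ((x (n + 5) : ℝ) - x (n + 3) - x (n + 2)) :=
        mul_nonneg (by positivity) (by linarith)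
      have k3 : 0 ≤ (φ ^ 3 + φ ^ 2 - φ ^ 4) * ((x (n + 3) : ℝ) - x (n + 2)) := by
        apply mul_nonneg
        · rw [e4, hφ]; linarith
        · linarith
      linarith
  obtain ⟨C, hC, hlow⟩ : ∃ C : ℝ, 0 < C ∧ ∀ n, n0 + 1 ≤ n → n < n0 + 4 → C * φ ^ n ≤ P n := by
    refine ⟨min (P (n0 + 1) / φ ^ (n0 + 1)) (min (P (n0 + 2) / φ ^ (n0 + 2))
      (P (n0 + 3) / φ ^ (n0 + 3))), ?_, ?_⟩
    · apply lt_min
      · exact div_pos (hPpos _) (by positivity)
      · exact lt_min (div_pos (hPpos _) (by positivity)) (div_pos (hPpos _) (by positivity))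
    intro n h1 h2
    have key : ∀ C' : ℝ, C' ≤ P n / φ ^ n → C' * φ ^ n ≤ P n := by
      intro C' hC'
      rwa [le_div_iff₀ (by positivity)] at hC'
    apply key
    have : n = n0 + 1 ∨ n = n0 + 2 ∨ n = n0 + 3 := by omega
    rcases this with rfl | rfl | rfl
    · exact min_le_left _ _
    · exact (min_le_right _ _).trans (min_le_left _ _)
    · exact (min_le_right _ _).trans (min_le_right _ _)
  have hall : ∀ n, n0 + 1 ≤ n → C * φ ^ n ≤ P n := by
    intro n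
    induction n using Nat.strong_induction_on with
    | _ n ih =>
      intro hn
      rcases Nat.lt_or_ge n (n0 + 4) with h | h
      · exact hlow n hn h
      · obtain ⟨m, rfl⟩ := Nat.exists_eq_add_of_le' (show 4 ≤ n by omega)
        rcases hstepP m (by omega) with h1 | h1
        · have h2 := ih (m + 3) (by omega) (by omega)
          have h3 : φ * (C * φ ^ (m + 3)) ≤ φ * P (m + 3) :=
            mul_le_mul_of_nonneg_left h2 hφ0.le
          calc C * φ ^ (m + 4) = φ * (C * φ ^ (m + 3)) := by ring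
            _ ≤ _ := h3
            _ ≤ _ := h1
        · have h2 := ih (m + 1) (by omega) (by omega)
          have h3 : φ ^ 3 * (C * φ ^ (m + 1)) ≤ φ ^ 3 * P (m + 1) :=
            mul_le_mul_of_nonneg_left h2 (by positivity)
          calc C * φ ^ (m + 4) = φ ^ 3 * (C * φ ^ (m + 1)) := by ring
            _ ≤ _ := h3
            _ ≤ _ := h1
  have hup : ∀ n, P n ≤ (1 + φ + φ ^ 2) * x (n + 2) := by
    intro n
    have a1 : (x n : ℝ) ≤ x (n + 2) := by exact_mod_cast hmono.monotone (show n ≤ n + 2 by omega)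
    have a2 : (x (n + 1) : ℝ) ≤ x (n + 2) := by
      exact_mod_cast hmono.monotone (show n + 1 ≤ n + 2 by omega)
    have a3 : φ ^ 2 * (x (n + 1) : ℝ) ≤ φ ^ 2 * x (n + 2) :=
      mul_le_mul_of_nonneg_left a2 (by positivity)
    show (x n : ℝ) + φ ^ 2 * x (n + 1) + φ * x (n + 2) ≤ (1 + φ + φ ^ 2) * x (n + 2)
    linarith
  have hratio : Tendsto (fun n : ℕ => c ^ 2 * (1 + φ + φ ^ 2) * (c / φ) ^ n) atTop (nhds 0) := by
    have := (tendsto_pow_atTop_nhds_zero_of_lt_one (r := c / φ) (by positivity)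
      ((div_lt_one hφ0).2 hcφ)).const_mul (c ^ 2 * (1 + φ + φ ^ 2))
    rwa [mul_zero] at this
  have hev : ∀ᶠ n : ℕ in atTop, c ^ 2 * (1 + φ + φ ^ 2) * (c / φ) ^ n < C :=
    hratio.eventually_lt_const hC
  obtain ⟨n1, hn1⟩ := eventually_atTop.1 hev
  rw [eventually_atTop]
  refine ⟨max n1 (n0 + 1) + 2, ?_⟩
  intro ν hν
  obtain ⟨n, rfl⟩ := Nat.exists_eq_add_of_le' (show 2 ≤ ν by omega)
  have h1 := hn1 n (by omega)
  have h2 := hall n (by omega)
  have h3 := hup n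
  have hφn : 0 < φ ^ n := by positivity
  have h4 : c ^ 2 * (1 + φ + φ ^ 2) * c ^ n < C * φ ^ n := by
    rw [div_pow, mul_div_assoc', div_lt_iff₀ hφn] at h1
    exact h1
  have h5 : (1 + φ + φ ^ 2) * c ^ (n + 2) < (1 + φ + φ ^ 2) * x (n + 2) := by
    have : (1 + φ + φ ^ 2) * c ^ (n + 2) = c ^ 2 * (1 + φ + φ ^ 2) * c ^ n := by ring
    rw [this]; linarith
  exact lt_of_mul_lt_mul_left h5 (by positivity)

/-- The growth bound for norms satisfying the parallelogram law. -/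
theorem euclid_growth {N : (Fin 2 → ℝ) → ℝ} (hN : IsNorm2 N)
    (hpar : ∀ x y, N (x + y) ^ 2 + N (x - y) ^ 2 = 2 * N x ^ 2 + 2 * N y ^ 2)
    {θ : Fin 2 → ℝ}
    (hθ : ∀ q : ℤ, q ≠ 0 → ¬ ∀ i : Fin 2, ∃ a : ℤ, (q : ℝ) * θ i = (a : ℝ))
    (φ : ℝ) (hφ : φ ^ 3 = φ + 1) (c : ℝ) (hc : 0 < c) (hcφ : c < φ) :
    ∀ᶠ ν in atTop, c ^ ν < (Nat.nth (isRec N θ) ν : ℝ) := by
  obtain ⟨n0, z, hz, hX, hz0⟩ := exists_BASeq' hN hθ
  have hinf := rec_infinite hN hθ
  have hXn : ∀ n, (hgt (z n)) = ((Nat.nth (isRec N θ) (n + n0) : ℕ) : ℤ) := hX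
  refine growth_of_steps (Nat.nth (isRec N θ)) n0
    (fun n => (Nat.nth_mem_of_infinite hinf n).1) (Nat.nth_strictMono hinf) ?_ φ hφ c hc hcφ
  intro n hn
  obtain ⟨m, rfl⟩ := Nat.exists_eq_add_of_le' hn
  have e : ∀ k, hgt (z (m + k)) = ((Nat.nth (isRec N θ) (m + n0 + k) : ℕ) : ℤ) := by
    intro k
    rw [hXn, show m + k + n0 = m + n0 + k by omega]
  by_cases hV : hgt (z (m + 6)) < hgt (z (m + 4)) + hgt (z (m + 3))
  · right
    have h1 := hz.euclid_viol hpar hz0 m hV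
    have h2 : z (m + 3) + z (m + 6) = z (m + 4) + z (m + 5) := hz.viol (m + 3) hV
    have h2' := congrArg hgt h2
    rw [map_add, map_add] at h2'
    have h3 : hgt (z (m + 3)) + hgt (z (m + 2)) ≤ hgt (z (m + 5)) := by
      by_contra hh
      exact hz.no_two_viol (m + 2) (not_le.1 hh) hV
    have h4 := hz.x_le (show m + 2 ≤ m + 3 by omega)
    rw [e, e, e, e] at h2'
    rw [e, e, e] at h1 h3
    rw [e, e] at h4
    refine ⟨?_, ?_, ?_, ?_⟩
    · exact_mod_cast h2'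
    · have : ((Nat.nth (isRec N θ) (m + n0 + 1) : ℕ) : ℤ) + (Nat.nth (isRec N θ) (m + n0 + 3) : ℕ)
        ≤ (Nat.nth (isRec N θ) (m + n0 + 4) : ℕ) := by linarith
      exact_mod_cast this
    · have : ((Nat.nth (isRec N θ) (m + n0 + 2) : ℕ) : ℤ) + (Nat.nth (isRec N θ) (m + n0 + 3) : ℕ)
        ≤ (Nat.nth (isRec N θ) (m + n0 + 5) : ℕ) := by linarith
      exact_mod_cast this
    · exact_mod_cast h4
  · left
    have hV := not_lt.1 hV
    rw [e, e, e] at hV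
    exact_mod_cast hV

end Pool.Agent.Helper54
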