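import Pool.Agent.Lib.Helper54.BestApproxCore

set_option autoImplicit false

namespace Pool.Agent.Helper54

namespace IsNorm2

variable {N : (Fin 2 → ℝ) → ℝ} (hN : IsNorm2 N)
include hN

/-- Four planar vectors with pairwise distances at least `R` and norms at most `R` (three of
them smaller): one of the three balanced combinations is short. -/
lemma quad_norm (a b c d : Fin 2 → ℝ) (R : ℝ) (ha : N a ≤ R) (hb : N b < R) (hc : N c < R)
    (hd : N d < R) (hab : R ≤ N (a - b)) (hac : R ≤ N (a - c)) (had : R ≤ N (a - d))
    (hbc : R ≤ N (b - c)) (hbd : R ≤ N (b - d)) (hcd : R ≤ N (c - d)) :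
    N (a + b - c - d) < 2 * R ∨ N (a + c - b - d) < 2 * R ∨ N (a + d - b - c) < 2 * R := by
  obtain ⟨p, q, r, s, hne, hsum, hrel, hp⟩ := aff4 a b c d
  -- the fan argument, applied to `d` inside the triangle `a b c` with weights
  have hfan : ∀ (x y z w : Fin 2 → ℝ) (x' y' z' w' : ℝ), 0 ≤ x' → 0 ≤ y' → 0 ≤ z' → w' ≤ 0 →
      w' ≠ 0 → x' + y' + z' + w' = 0 → x' • x + y' • y + z' • z + w' • w = 0 →
      N x + N y < 2 * R → N x + N z < 2 * R → N y + N z < 2 * R → R ≤ N (x - w) →
      R ≤ N (y - w) → R ≤ N (z - w) → False := by
    intro x y z w x' y' z' w' hx hy hz hw hw0 hs hr h1 h2 h3 h4 h5 h6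
    have hwpos : 0 < -w' := by
      rcases lt_or_eq_of_le hw with h | h
      · linarith
      · exact absurd h hw0
    refine hN.fan x y z w (x' / -w') (y' / -w') (z' / -w') (div_nonneg hx hwpos.le)
      (div_nonneg hy hwpos.le) (div_nonneg hz hwpos.le) ?_ ?_ R h1 h2 h3 h4 h5 h6
    · rw [← add_div, ← add_div, div_eq_one_iff_eq hwpos.ne']; linarith
    · have e1 : (-w') • w = x' • x + y' • y + z' • z := by
        have : x' • x + y' • y + z' • z - (-w') • w = 0 := by rw [← hr]; module
        exact (sub_eq_zero.1 this).symm
      have e2 : w = (-w')⁻¹ • ((-w') • w) := by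
        rw [smul_smul, inv_mul_cancel₀ hwpos.ne', one_smul]
      rw [e2, e1, div_eq_mul_inv, div_eq_mul_inv, div_eq_mul_inv]
      module
  have maxlt : ∀ x y : ℝ, x < R → y < R → max x y < R := fun x y h1 h2 => max_lt h1 h2
  have maxle : ∀ x y : ℝ, x ≤ R → y ≤ R → max x y ≤ R := fun x y h1 h2 => max_le h1 h2
  rcases le_total 0 q with hq | hq <;> rcases le_total 0 r with hr | hr <;>
    rcases le_total 0 s with hs | hs
  · -- all nonnegative: impossible
    exfalso
    rcases hne with h | h | h | h
    · exact h (by linarith)
    · exact h (by linarith)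
    · exact h (by linarith)
    · exact h (by linarith)
  · -- d inside a b c
    exfalso
    have hs0 : s ≠ 0 := by
      intro h0
      rcases hne with h | h | h | h
      · exact h (by linarith)
      · exact h (by linarith)
      · exact h (by linarith)
      · exact h h0
    exact hfan a b c d p q r s hp hq hr hs hs0 hsum hrel (by linarith) (by linarith)
      (by linarith) had hbd hcd
  · -- c inside a b d
    exfalso
    have hr0 : r ≠ 0 := by
      intro h0
      rcases hne with h | h | h | h
      · exact h (by linarith)
      · exact h (by linarith)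
      · exact h h0
      · exact h (by linarith)
    exact hfan a b d c p q s r hp hq hs hr hr0 (by linarith) (by rw [← hrel]; abel)
      (by linarith) (by linarith) (by linarith) hac hbc (by rw [hN.sub_comm']; exact hcd)
  · -- a b | c d
    left
    have hpos : 0 < p + q := by
      rcases lt_or_eq_of_le (add_nonneg hp hq) with h | h
      · exact h
      · exfalso
        rcases hne with h1 | h1 | h1 | h1
        · exact h1 (by linarith)
        · exact h1 (by linarith)
        · exact h1 (by linarith)
        · exact h1 (by linarith)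
    have := hN.cross a b c d p q (-r) (-s) R (max (N c) (N d)) hp hq (by linarith) (by linarith)
      (by linarith) hpos
      (by
        have : p • a + q • b - ((-r) • c + (-s) • d) = 0 := by rw [← hrel]; module
        exact sub_eq_zero.1 this) ha hb.le (le_max_left _ _) (le_max_right _ _)
    have h2 := maxlt _ _ hc hd
    linarith
  · -- b inside a c d
    exfalso
    have hq0 : q ≠ 0 := by
      intro h0
      rcases hne with h | h | h | h
      · exact h (by linarith)
      · exact h h0
      · exact h (by linarith)
      · exact h (by linarith)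
    exact hfan a c d b p r s q hp hr hs hq hq0 (by linarith) (by rw [← hrel]; abel)
      (by linarith) (by linarith) (by linarith) hab (by rw [hN.sub_comm']; exact hbc)
      (by rw [hN.sub_comm']; exact hbd)
  · -- a c | b d
    right; left
    have hpos : 0 < p + r := by
      rcases lt_or_eq_of_le (add_nonneg hp hr) with h | h
      · exact h
      · exfalso
        rcases hne with h1 | h1 | h1 | h1
        · exact h1 (by linarith)
        · exact h1 (by linarith)
        · exact h1 (by linarith)
        · exact h1 (by linarith)
    have := hN.cross a c b d p r (-q) (-s) R (max (N b) (N d)) hp hr (by linarith) (by linarith)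
      (by linarith) hpos
      (by
        have : p • a + r • c - ((-q) • b + (-s) • d) = 0 := by rw [← hrel]; module
        exact sub_eq_zero.1 this) ha hc.le (le_max_left _ _) (le_max_right _ _)
    have h2 := maxlt _ _ hb hd
    linarith
  · -- a d | b c
    right; right
    have hpos : 0 < p + s := by
      rcases lt_or_eq_of_le (add_nonneg hp hs) with h | h
      · exact h
      · exfalso
        rcases hne with h1 | h1 | h1 | h1
        · exact h1 (by linarith)
        · exact h1 (by linarith)
        · exact h1 (by linarith)
        · exact h1 (by linarith)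
    have := hN.cross a d b c p s (-q) (-r) R (max (N b) (N c)) hp hs (by linarith) (by linarith)
      (by linarith) hpos
      (by
        have : p • a + s • d - ((-q) • b + (-r) • c) = 0 := by rw [← hrel]; module
        exact sub_eq_zero.1 this) ha hd.le (le_max_left _ _) (le_max_right _ _)
    have h2 := maxlt _ _ hb hc
    linarith
  · -- a inside b c d
    exfalso
    have hp0 : p ≠ 0 := by
      intro h0
      rcases hne with h | h | h | h
      · exact h h0
      · exact h (by linarith)
      · exact h (by linarith)
      · exact h (by linarith)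
    exact hfan b c d a (-q) (-r) (-s) (-p) (by linarith) (by linarith) (by linarith)
      (by linarith) (by simpa using hp0) (by linarith)
      (by
        have : (-q) • b + (-r) • c + (-s) • d + (-p) • a
          = -(p • a + q • b + r • c + s • d) := by module
        rw [this, hrel, neg_zero])
      (by linarith) (by linarith) (by linarith) (by rw [hN.sub_comm']; exact hab)
      (by rw [hN.sub_comm']; exact hac) (by rw [hN.sub_comm']; exact had)

end IsNorm2

/-- The class of an integer vector modulo two. -/
def cls (w : Fin 3 → ℤ) : ZMod 2 × ZMod 2 × ZMod 2 := (w 0, w 1, w 2)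

lemma cls_add (v w : Fin 3 → ℤ) : cls (v + w) = cls v + cls w := by
  simp [cls]

lemma cls_neg (v : Fin 3 → ℤ) : cls (-v) = cls v := by
  simp [cls, ZMod.neg_eq_self_mod_two]

lemma cls_sub (v w : Fin 3 → ℤ) : cls (v - w) = cls v + cls w := by
  rw [sub_eq_add_neg, cls_add, cls_neg]

lemma half_of_cls {w : Fin 3 → ℤ} (h : cls w = 0) : ∃ h : Fin 3 → ℤ, w = h + h := by
  simp only [cls, Prod.mk_eq_zero] at h
  obtain ⟨h0, h1, h2⟩ := h
  rw [ZMod.intCast_zmod_eq_zero_iff_dvd] at h0 h1 h2
  obtain ⟨a, ha⟩ := h0
  obtain ⟨b, hb⟩ := h1
  obtain ⟨c, hc⟩ := h2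
  refine ⟨![a, b, c], ?_⟩
  ext i
  fin_cases i
  · simp only [Pi.add_apply]; show w 0 = a + a; push_cast at ha; omega
  · simp only [Pi.add_apply]; show w 1 = b + b; push_cast at hb; omega
  · simp only [Pi.add_apply]; show w 2 = c + c; push_cast at hc; omega

/-- Boolean form of the statement about four points of the Fano plane. -/
def fanoOk (a b c d : ZMod 2 × ZMod 2 × ZMod 2) : Bool :=
  a == 0 || b == 0 || c == 0 || d == 0 ||
    a + b == 0 || a + c == 0 || a + d == 0 || b + c == 0 || b + d == 0 || c + d == 0 ||
    a + b + c == 0 || a + b + d == 0 || a + c + d == 0 || b + c + d == 0 || a + b + c + d == 0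

lemma fanoOk_true : ∀ a b c d : ZMod 2 × ZMod 2 × ZMod 2, fanoOk a b c d = true := by
  decide +kernel

/-- Four points of the Fano plane, no three on a line, sum to zero. -/
lemma fano4 : ∀ a b c d : ZMod 2 × ZMod 2 × ZMod 2, a ≠ 0 → b ≠ 0 → c ≠ 0 → d ≠ 0 →
    a + b ≠ 0 → a + c ≠ 0 → a + d ≠ 0 → b + c ≠ 0 → b + d ≠ 0 → c + d ≠ 0 →
    a + b + c ≠ 0 → a + b + d ≠ 0 → a + c + d ≠ 0 → b + c + d ≠ 0 → a + b + c + d = 0 := by
  intro a b c d h1 h2 h3 h4 h5 h6 h7 h8 h9 h10 h11 h12 h13 h14
  have := fanoOk_true a b c d
  simp only [fanoOk, Bool.or_eq_true, beq_iff_eq] at this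
  tauto

end Pool.Agent.Helper54
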