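import Pool.Agent.Lib.Helper54.BestApproxSeq

set_option autoImplicit false

namespace Pool.Agent.Helper54

open Filter

namespace IsNorm2

variable {N : (Fin 2 → ℝ) → ℝ} (hN : IsNorm2 N)
include hN

lemma le_sup (x : Fin 2 → ℝ) : N x ≤ (N (Pi.single 0 1) + N (Pi.single 1 1)) * ‖x‖ := by
  have e : x = (x 0) • (Pi.single 0 1 : Fin 2 → ℝ) + (x 1) • (Pi.single 1 1 : Fin 2 → ℝ) := by
    ext i; fin_cases i <;> simp
  have h := hN.lin2 (x 0) (x 1) (Pi.single 0 1) (Pi.single 1 1)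
  rw [← e] at h
  have h0 : |x 0| ≤ ‖x‖ := norm_le_pi_norm x 0
  have h1 : |x 1| ≤ ‖x‖ := norm_le_pi_norm x 1
  have n0 := hN.nonneg (Pi.single 0 1)
  have n1 := hN.nonneg (Pi.single 1 1)
  nlinarith

lemma continuous : Continuous N := by
  set C := N (Pi.single 0 1) + N (Pi.single 1 1) with hC
  have hC0 : 0 ≤ C := add_nonneg (hN.nonneg _) (hN.nonneg _)
  have hL : LipschitzWith ⟨C, hC0⟩ N := by
    apply LipschitzWith.of_dist_le_mul
    intro x y
    rw [Real.dist_eq, dist_eq_norm]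
    have h1 := hN.tri (x - y) y
    have h2 := hN.tri (y - x) x
    rw [sub_add_cancel] at h1 h2
    have h3 := hN.le_sup (x - y)
    rw [hN.sub_comm' y x] at h2
    rw [abs_le]
    constructor
    · have : N (x - y) ≤ C * ‖x - y‖ := h3
      show -(C * ‖x - y‖) ≤ N x - N y
      linarith
    · show N x - N y ≤ C * ‖x - y‖
      linarith
  exact hL.continuous

/-- The norm dominates a multiple of the sup norm. -/
lemma exists_lower : ∃ κ : ℝ, 0 < κ ∧ ∀ x, κ * ‖x‖ ≤ N x := by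
  have hc : IsCompact (Metric.sphere (0 : Fin 2 → ℝ) 1) := isCompact_sphere 0 1
  have hne : (Metric.sphere (0 : Fin 2 → ℝ) 1).Nonempty := NormedSpace.sphere_nonempty.2 zero_le_one
  obtain ⟨x0, hx0, hmin⟩ := hc.exists_isMinOn hne hN.continuous.continuousOn
  have hx0n : ‖x0‖ = 1 := by simpa using hx0
  have hpos : 0 < N x0 := by
    rcases lt_or_eq_of_le (hN.nonneg x0) with h | h
    · exact h
    · have := hN.eq_zero x0 h.symm
      rw [this, norm_zero] at hx0n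
      norm_num at hx0n
  refine ⟨N x0, hpos, ?_⟩
  intro x
  by_cases hx : x = 0
  · rw [hx, norm_zero, mul_zero, hN.zero]
  · have hnx : 0 < ‖x‖ := norm_pos_iff.2 hx
    have hmem : (‖x‖⁻¹ • x) ∈ Metric.sphere (0 : Fin 2 → ℝ) 1 := by
      simp [norm_smul, hnx.ne']
    have h1 : N x0 ≤ N (‖x‖⁻¹ • x) := hmin hmem
    rw [hN.hom, abs_of_pos (inv_pos.2 hnx)] at h1
    have h2 := mul_le_mul_of_nonneg_right h1 hnx.le
    have h3 : ‖x‖⁻¹ * N x * ‖x‖ = N x := by field_simp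
    linarith

/-- The distance to the integer lattice is attained. -/
lemma exists_nearest (v : Fin 2 → ℝ) :
    ∃ a : Fin 2 → ℤ, ∀ b : Fin 2 → ℤ, N (fun i => v i - (a i : ℝ)) ≤ N (fun i => v i - (b i : ℝ)) := by
  obtain ⟨κ, hκ, hlow⟩ := hN.exists_lower
  set R := N (fun i => v i - ((0 : Fin 2 → ℤ) i : ℝ)) with hR
  set S := {b : Fin 2 → ℤ | N (fun i => v i - (b i : ℝ)) ≤ R} with hS
  have hfin : S.Finite := by
    obtain ⟨M, hM⟩ := exists_nat_ge (‖v‖ + R / κ)
    apply (Set.finite_Icc (fun _ => -(M:ℤ) : Fin 2 → ℤ) (fun _ => (M:ℤ))).subset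
    intro b hb
    have h1 := (hlow (fun i => v i - (b i : ℝ))).trans hb
    have h2 : ‖(fun i => v i - (b i : ℝ))‖ ≤ R / κ := by
      rw [le_div_iff₀ hκ]; linarith
    have h3 : ∀ i, |(b i : ℝ)| ≤ M := by
      intro i
      have h4 : |v i - (b i : ℝ)| ≤ R / κ :=
        (norm_le_pi_norm (fun i => v i - (b i : ℝ)) i).trans h2
      have h5 : |v i| ≤ ‖v‖ := norm_le_pi_norm v i
      have h6 : |(b i : ℝ)| ≤ |v i| + |v i - (b i : ℝ)| := by
        have := abs_sub_abs_le_abs_sub (b i : ℝ) (v i)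
        rw [abs_sub_comm] at this
        linarith
      linarith
    constructor
    · intro i
      have := (abs_le.1 (h3 i)).1
      show -(M:ℤ) ≤ b i
      exact_mod_cast this
    · intro i
      have := (abs_le.1 (h3 i)).2
      show b i ≤ (M:ℤ)
      exact_mod_cast this
  obtain ⟨a, haS, ha⟩ := Set.exists_min_image S (fun b => N (fun i => v i - (b i : ℝ))) hfin
    ⟨0, (le_refl R : R ≤ R)⟩
  refine ⟨a, ?_⟩
  intro b
  by_cases hb : b ∈ S
  · exact ha b hb
  · have : R < N (fun i => v i - (b i : ℝ)) := not_le.1 hb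
    exact (haS : _ ≤ R).trans this.le

end IsNorm2

/-- Distance of `k θ` to the integer lattice, as in the frozen statement. -/
noncomputable def latDist (N : (Fin 2 → ℝ) → ℝ) (θ : Fin 2 → ℝ) (k : ℕ) : ℝ :=
  ⨅ a : Fin 2 → ℤ, N (fun i => (k : ℝ) * θ i - ((a i : ℤ) : ℝ))

/-- Record times. -/
def isRec (N : (Fin 2 → ℝ) → ℝ) (θ : Fin 2 → ℝ) (k : ℕ) : Prop :=
  0 < k ∧ ∀ j : ℕ, 0 < j → j < k → latDist N θ k < latDist N θ j

section

variable {N : (Fin 2 → ℝ) → ℝ} (hN : IsNorm2 N) {θ : Fin 2 → ℝ}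
include hN

lemma bdd (k : ℕ) : BddBelow (Set.range fun a : Fin 2 → ℤ =>
    N (fun i => (k : ℝ) * θ i - ((a i : ℤ) : ℝ))) :=
  ⟨0, by rintro _ ⟨a, rfl⟩; exact hN.nonneg _⟩

lemma latDist_le (k : ℕ) (a : Fin 2 → ℤ) :
    latDist N θ k ≤ N (fun i => (k : ℝ) * θ i - ((a i : ℤ) : ℝ)) :=
  ciInf_le (bdd hN k) a

lemma latDist_attained (k : ℕ) : ∃ a : Fin 2 → ℤ,
    N (fun i => (k : ℝ) * θ i - ((a i : ℤ) : ℝ)) = latDist N θ k := by
  obtain ⟨a, ha⟩ := hN.exists_nearest (fun i => (k : ℝ) * θ i)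
  refine ⟨a, le_antisymm ?_ (latDist_le hN k a)⟩
  exact le_ciInf ha

lemma latDist_pos (hθ : ∀ q : ℤ, q ≠ 0 → ¬ ∀ i : Fin 2, ∃ a : ℤ, (q : ℝ) * θ i = (a : ℝ))
    (k : ℕ) (hk : 0 < k) : 0 < latDist N θ k := by
  obtain ⟨a, ha⟩ := latDist_attained hN (θ := θ) k
  rw [← ha]
  rcases lt_or_eq_of_le (hN.nonneg (fun i => (k : ℝ) * θ i - ((a i : ℤ) : ℝ))) with h | h
  · exact h
  · exfalso
    have h0 := hN.eq_zero _ h.symm
    apply hθ (k : ℤ) (by exact_mod_cast hk.ne')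
    intro i
    refine ⟨a i, ?_⟩
    have := congrFun h0 i
    simp only [Pi.zero_apply] at this
    push_cast
    linarith

/-- Dirichlet: the distances become arbitrarily small. -/
lemma exists_small (ε : ℝ) (hε : 0 < ε) : ∃ k : ℕ, 0 < k ∧ latDist N θ k < ε := by
  set C := N (Pi.single 0 1) + N (Pi.single 1 1) with hC
  have hC0 : 0 ≤ C := add_nonneg (hN.nonneg _) (hN.nonneg _)
  set u : ℕ → (Fin 2 → ℝ) := fun k i => Int.fract ((k : ℝ) * θ i) with hu
  have hcomp : IsCompact (Set.Icc (0 : Fin 2 → ℝ) 1) := isCompact_Icc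
  have hmem : ∀ k, u k ∈ Set.Icc (0 : Fin 2 → ℝ) 1 := by
    intro k
    constructor
    · intro i; exact Int.fract_nonneg _
    · intro i; exact (Int.fract_lt_one _).le
  obtain ⟨a, -, φ, hφ, hlim⟩ := hcomp.tendsto_subseq hmem
  have hcau := hlim.cauchySeq
  rw [Metric.cauchySeq_iff] at hcau
  obtain ⟨n0, hn0⟩ := hcau (ε / (C + 1)) (by positivity)
  have hd := hn0 (n0 + 1) (by omega) n0 le_rfl
  have hlt : φ n0 < φ (n0 + 1) := hφ (by omega)
  refine ⟨φ (n0 + 1) - φ n0, by omega, ?_⟩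
  have h1 := latDist_le hN (θ := θ) (φ (n0 + 1) - φ n0)
    (fun i => ⌊((φ (n0 + 1) : ℕ) : ℝ) * θ i⌋ - ⌊((φ n0 : ℕ) : ℝ) * θ i⌋)
  have e : (fun i => ((φ (n0 + 1) - φ n0 : ℕ) : ℝ) * θ i -
      (((⌊((φ (n0 + 1) : ℕ) : ℝ) * θ i⌋ - ⌊((φ n0 : ℕ) : ℝ) * θ i⌋ : ℤ)) : ℝ))
      = u (φ (n0 + 1)) - u (φ n0) := by
    ext i
    simp only [hu, Pi.sub_apply, Int.fract]
    rw [Nat.cast_sub hlt.le]
    push_cast
    ring
  rw [e] at h1
  have h2 := hN.le_sup (u (φ (n0 + 1)) - u (φ n0))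
  rw [dist_eq_norm] at hd
  have hd' : ‖u (φ (n0 + 1)) - u (φ n0)‖ < ε / (C + 1) := hd
  have h3 : C * ‖u (φ (n0 + 1)) - u (φ n0)‖ ≤ C * (ε / (C + 1)) :=
    mul_le_mul_of_nonneg_left hd'.le hC0
  have h4 : C * (ε / (C + 1)) < ε := by
    rw [mul_div_assoc', div_lt_iff₀ (by positivity)]
    nlinarith
  calc latDist N θ (φ (n0 + 1) - φ n0) ≤ _ := h1
    _ ≤ _ := h2
    _ ≤ _ := h3
    _ < ε := h4

lemma exists_rec_gt (hθ : ∀ q : ℤ, q ≠ 0 → ¬ ∀ i : Fin 2, ∃ a : ℤ, (q : ℝ) * θ i = (a : ℝ))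
    (K : ℕ) (ε : ℝ) (hε : 0 < ε) : ∃ k, K < k ∧ isRec N θ k ∧ latDist N θ k < ε := by
  -- a positive lower bound for the distances up to K
  have hlow : ∃ m : ℝ, 0 < m ∧ ∀ j : ℕ, 0 < j → j ≤ K → m ≤ latDist N θ j := by
    induction K with
    | zero => exact ⟨1, one_pos, fun j h1 h2 => by omega⟩
    | succ K ih =>
      obtain ⟨m, hm, hle⟩ := ih
      refine ⟨min m (latDist N θ (K + 1)), lt_min hm (latDist_pos hN hθ _ (by omega)), ?_⟩
      intro j h1 h2
      rcases Nat.lt_or_ge j (K + 1) with h | h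
      · exact (min_le_left _ _).trans (hle j h1 (by omega))
      · have : j = K + 1 := by omega
        rw [this]; exact min_le_right _ _
  obtain ⟨m, hm, hle⟩ := hlow
  have hex : ∃ k : ℕ, 0 < k ∧ latDist N θ k < min m ε :=
    exists_small hN (min m ε) (lt_min hm hε)
  classical
  set k := Nat.find hex with hk
  obtain ⟨hk0, hk1⟩ := Nat.find_spec hex
  refine ⟨k, ?_, ⟨hk0, ?_⟩, hk1.trans_le (min_le_right _ _)⟩
  · by_contra hcon
    have := hle k hk0 (by omega)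
    have h2 : latDist N θ k < m := hk1.trans_le (min_le_left _ _)
    linarith
  · intro j h1 h2
    have := Nat.find_min hex h2
    push Not at this
    exact hk1.trans_le (this h1)

lemma rec_infinite (hθ : ∀ q : ℤ, q ≠ 0 → ¬ ∀ i : Fin 2, ∃ a : ℤ, (q : ℝ) * θ i = (a : ℝ)) :
    {k : ℕ | isRec N θ k}.Infinite := by
  rw [← Nat.frequently_atTop_iff_infinite, frequently_atTop]
  intro K
  obtain ⟨k, h1, h2, -⟩ := exists_rec_gt hN hθ K 1 one_pos
  exact ⟨k, h1.le, h2⟩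

/-- Between consecutive records the distances are at least the last record value. -/
lemma rec_gap (hθ : ∀ q : ℤ, q ≠ 0 → ¬ ∀ i : Fin 2, ∃ a : ℤ, (q : ℝ) * θ i = (a : ℝ))
    (n j : ℕ) (hj : 0 < j) (hj2 : j < Nat.nth (isRec N θ) (n + 1)) :
    latDist N θ (Nat.nth (isRec N θ) n) ≤ latDist N θ j := by
  classical
  have hinf := rec_infinite hN hθ
  have hmem := Nat.nth_mem_of_infinite hinf n
  by_contra hcon
  have hcon := not_le.1 hcon
  have hex : ∃ j : ℕ, 0 < j ∧ latDist N θ j < latDist N θ (Nat.nth (isRec N θ) n) := ⟨j, hj, hcon⟩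
  set i := Nat.find hex with hi
  obtain ⟨hi0, hi1⟩ := Nat.find_spec hex
  have hij : i ≤ j := Nat.find_min' hex ⟨hj, hcon⟩
  have hrec : isRec N θ i := by
    refine ⟨hi0, ?_⟩
    intro k h1 h2
    have := Nat.find_min hex h2
    push Not at this
    exact hi1.trans_le (this h1)
  have hgt : Nat.nth (isRec N θ) n < i := by
    by_contra h
    rcases lt_or_eq_of_le (not_lt.1 h) with h' | h'
    · have := hmem.2 i hi0 h'
      linarith
    · have hi2 : latDist N θ i < latDist N θ (Nat.nth (isRec N θ) n) := hi1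
      rw [h'] at hi2
      exact lt_irrefl _ hi2
  have hcount := Nat.nth_count hrec
  have hmono := Nat.nth_strictMono hinf
  have a1 : n < Nat.count (isRec N θ) i := by
    rw [← hmono.lt_iff_lt, hcount]; exact hgt
  have a2 : Nat.count (isRec N θ) i < n + 1 := by
    rw [← hmono.lt_iff_lt, hcount]; exact lt_of_le_of_lt hij hj2
  omega

lemma rec_tendsto (hθ : ∀ q : ℤ, q ≠ 0 → ¬ ∀ i : Fin 2, ∃ a : ℤ, (q : ℝ) * θ i = (a : ℝ))
    (ε : ℝ) (hε : 0 < ε) : ∃ n0, ∀ n, n0 ≤ n → latDist N θ (Nat.nth (isRec N θ) n) < ε := by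
  have hinf := rec_infinite hN hθ
  obtain ⟨k, -, hk, hk2⟩ := exists_rec_gt hN hθ 0 ε hε
  classical
  refine ⟨Nat.count (isRec N θ) k, ?_⟩
  intro n hn
  have hmono := (Nat.nth_strictMono hinf).monotone hn
  rw [Nat.nth_count hk] at hmono
  rcases lt_or_eq_of_le hmono with h | h
  · have := (Nat.nth_mem_of_infinite hinf n).2 k hk.1 h
    linarith
  · rw [← h]; exact hk2

end

/-- The height map. -/
def hgt : (Fin 3 → ℤ) →+ ℤ where
  toFun w := w 0
  map_zero' := rfl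
  map_add' _ _ := rfl

/-- The error map. -/
noncomputable def err (θ : Fin 2 → ℝ) : (Fin 3 → ℤ) →+ (Fin 2 → ℝ) where
  toFun w := fun i => (w 0 : ℝ) * θ i - (w i.succ : ℝ)
  map_zero' := by ext i; simp
  map_add' v w := by ext i; simp; ring

/-- Record times give a best approximation sequence (after a shift); moreover integer vectors
of height zero are long. -/
theorem exists_BASeq' {N : (Fin 2 → ℝ) → ℝ} (hN : IsNorm2 N) {θ : Fin 2 → ℝ}
    (hθ : ∀ q : ℤ, q ≠ 0 → ¬ ∀ i : Fin 2, ∃ a : ℤ, (q : ℝ) * θ i = (a : ℝ)) :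
    ∃ n0 : ℕ, ∃ z : ℕ → Fin 3 → ℤ, BASeq N hgt (err θ) z ∧
      (∀ n, hgt (z n) = (Nat.nth (isRec N θ) (n + n0) : ℤ)) ∧
      ∀ w : Fin 3 → ℤ, w ≠ 0 → hgt w = 0 → 3 * N (err θ (z 0)) ≤ N (err θ w) := by
  have hinf := rec_infinite hN hθ
  obtain ⟨κ, hκ, hlow⟩ := hN.exists_lower
  obtain ⟨n0, hn0⟩ := rec_tendsto hN hθ (κ / 3) (by positivity)
  have hzero : ∀ w : Fin 3 → ℤ, w ≠ 0 → hgt w = 0 → κ ≤ N (err θ w) := by
    intro w hw hw0
    have hw0' : w 0 = 0 := hw0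
    have hne : ∃ i : Fin 2, w i.succ ≠ 0 := by
      by_contra hcon
      push Not at hcon
      apply hw
      ext i
      refine Fin.cases ?_ ?_ i
      · exact hw0'
      · intro j; exact hcon j
    obtain ⟨i, hi⟩ := hne
    have h1 : (1:ℝ) ≤ ‖err θ w‖ := by
      have h2 : |err θ w i| ≤ ‖err θ w‖ := norm_le_pi_norm (err θ w) i
      have h3 : err θ w i = -(w i.succ : ℝ) := by simp [err, hw0']
      rw [h3, abs_neg] at h2
      have h4 : (1:ℝ) ≤ |(w i.succ : ℝ)| := by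
        rw [← Int.cast_abs]
        exact_mod_cast Int.one_le_abs hi
      linarith
    have h2 := hlow (err θ w)
    nlinarith
  choose a ha using fun k => latDist_attained hN (θ := θ) k
  set x : ℕ → ℕ := fun n => Nat.nth (isRec N θ) (n + n0) with hx
  set z : ℕ → Fin 3 → ℤ := fun n => ![(x n : ℤ), a (x n) 0, a (x n) 1] with hz
  have hE : ∀ n, err θ (z n) = fun i => ((x n : ℕ) : ℝ) * θ i - ((a (x n) i : ℤ) : ℝ) := by
    intro n
    ext i
    fin_cases i <;> simp [err, hz]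
  have hX : ∀ n, hgt (z n) = (x n : ℤ) := fun n => rfl
  have hr : ∀ n, N (err θ (z n)) = latDist N θ (x n) := by
    intro n; rw [hE, ha]
  refine ⟨n0, z, ⟨hN, ?_, ?_, ?_, ?_⟩, hX, ?_⟩
  · rw [hX]
    exact_mod_cast (Nat.nth_mem_of_infinite hinf (0 + n0)).1
  · intro i j hij
    show hgt (z i) < hgt (z j)
    rw [hX, hX]
    exact_mod_cast Nat.nth_strictMono hinf (show i + n0 < j + n0 by omega)
  · intro i j hij
    show N (err θ (z j)) < N (err θ (z i))
    rw [hr, hr]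
    exact (Nat.nth_mem_of_infinite hinf (j + n0)).2 _ (Nat.nth_mem_of_infinite hinf (i + n0)).1
      (Nat.nth_strictMono hinf (show i + n0 < j + n0 by omega))
  · intro n w hw hlt
    rw [hX] at hlt
    rw [hr]
    by_cases hw0 : hgt w = 0
    · -- purely integral vector
      have h3 := hn0 (n + n0) (by omega)
      have h4 : latDist N θ (x n) < κ / 3 := h3
      have h5 := hzero w hw hw0
      linarith
    · -- general vector
      obtain ⟨v, hv, hvN, hvX⟩ : ∃ v : Fin 3 → ℤ, 0 < hgt v ∧ N (err θ v) = N (err θ w) ∧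
          |hgt w| = hgt v := by
        rcases lt_or_gt_of_ne hw0 with h | h
        · refine ⟨-w, by rw [map_neg]; omega, by rw [map_neg, hN.neg], ?_⟩
          rw [map_neg, abs_of_neg h]
        · exact ⟨w, h, rfl, abs_of_pos h⟩
      rw [hvX] at hlt
      rw [← hvN]
      have hv' : 0 < v 0 := hv
      obtain ⟨k, hk⟩ := Int.eq_ofNat_of_zero_le hv'.le
      have hk0 : 0 < k := by omega
      have hkx : k < x (n + 1) := by
        have : v 0 < (x (n + 1) : ℤ) := hlt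
        omega
      have h1 := rec_gap hN hθ (n + n0) k hk0 (by
        have : x (n + 1) = Nat.nth (isRec N θ) (n + n0 + 1) := by
          simp only [hx]; congr 1; omega
        rw [← this]; exact hkx)
      refine h1.trans ((latDist_le hN k (fun i => v i.succ)).trans (le_of_eq ?_))
      congr 1
      ext i
      simp [err, hk]
  · intro w hw hw0
    have h3 := hn0 (0 + n0) (by omega)
    have h4 : latDist N θ (x 0) < κ / 3 := h3
    have h5 := hzero w hw hw0
    rw [hr]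
    linarith

/-- Record times give a best approximation sequence (after a shift). -/
theorem exists_BASeq {N : (Fin 2 → ℝ) → ℝ} (hN : IsNorm2 N) {θ : Fin 2 → ℝ}
    (hθ : ∀ q : ℤ, q ≠ 0 → ¬ ∀ i : Fin 2, ∃ a : ℤ, (q : ℝ) * θ i = (a : ℝ)) :
    ∃ n0 : ℕ, ∃ z : ℕ → Fin 3 → ℤ, BASeq N hgt (err θ) z ∧
      ∀ n, hgt (z n) = (Nat.nth (isRec N θ) (n + n0) : ℤ) := by
  obtain ⟨n0, z, h1, h2, -⟩ := exists_BASeq' hN hθ
  exact ⟨n0, z, h1, h2⟩

/-- The universal growth inequality for record times. -/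
theorem record_growth {N : (Fin 2 → ℝ) → ℝ} (hN : IsNorm2 N) {θ : Fin 2 → ℝ}
    (hθ : ∀ q : ℤ, q ≠ 0 → ¬ ∀ i : Fin 2, ∃ a : ℤ, (q : ℝ) * θ i = (a : ℝ)) :
    ∃ n0 : ℕ, ∀ n, n0 ≤ n → Nat.nth (isRec N θ) (n + 2) + Nat.nth (isRec N θ) n
      ≤ Nat.nth (isRec N θ) (n + 4) := by
  obtain ⟨n0, z, hz, hX⟩ := exists_BASeq hN hθ
  refine ⟨n0, ?_⟩
  intro n hn
  obtain ⟨m, rfl⟩ := Nat.exists_eq_add_of_le' hn
  have := hz.growth4 m
  rw [hX, hX, hX] at this
  have e1 : m + 2 + n0 = m + n0 + 2 := by omega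
  have e2 : m + 4 + n0 = m + n0 + 4 := by omega
  rw [e1, e2] at this
  exact_mod_cast this

/-- Exponential growth from the recurrence. -/
theorem growth_of_rec (x : ℕ → ℕ) (n0 : ℕ) (hpos : ∀ n, 0 < x n)
    (hrec : ∀ n, n0 ≤ n → x (n + 2) + x n ≤ x (n + 4)) (g : ℝ) (hg : 0 < g)
    (hg4 : g ^ 4 = g ^ 2 + 1) (c : ℝ) (hc : 0 < c) (hcg : c < g) :
    ∀ᶠ n in atTop, c ^ n < (x n : ℝ) := by
  -- a lower bound of the form C g^n
  obtain ⟨C, hC, hlow⟩ : ∃ C : ℝ, 0 < C ∧ ∀ n, n0 ≤ n → n < n0 + 4 → C * g ^ n ≤ x n := by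
    refine ⟨min (min (1 / g ^ n0) (1 / g ^ (n0 + 1))) (min (1 / g ^ (n0 + 2)) (1 / g ^ (n0 + 3))),
      by positivity, ?_⟩
    intro n h1 h2
    have hx1 : (1:ℝ) ≤ x n := by exact_mod_cast hpos n
    have key : ∀ C' : ℝ, C' ≤ 1 / g ^ n → C' * g ^ n ≤ x n := by
      intro C' hC'
      have : C' * g ^ n ≤ 1 / g ^ n * g ^ n := mul_le_mul_of_nonneg_right hC' (by positivity)
      rw [one_div, inv_mul_cancel₀ (by positivity)] at this
      linarith
    apply key
    have : n = n0 ∨ n = n0 + 1 ∨ n = n0 + 2 ∨ n = n0 + 3 := by omega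
    rcases this with rfl | rfl | rfl | rfl
    · exact (min_le_left _ _).trans (min_le_left _ _)
    · exact (min_le_left _ _).trans (min_le_right _ _)
    · exact (min_le_right _ _).trans (min_le_left _ _)
    · exact (min_le_right _ _).trans (min_le_right _ _)
  have hall : ∀ n, n0 ≤ n → C * g ^ n ≤ x n := by
    intro n
    induction n using Nat.strong_induction_on with
    | _ n ih =>
      intro hn
      rcases Nat.lt_or_ge n (n0 + 4) with h | h
      · exact hlow n hn h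
      · obtain ⟨m, rfl⟩ := Nat.exists_eq_add_of_le' (show 4 ≤ n by omega)
        have h1 := ih m (by omega) (by omega)
        have h2 := ih (m + 2) (by omega) (by omega)
        have h3 := hrec m (by omega)
        have h4 : (x (m + 2) : ℝ) + x m ≤ x (m + 4) := by exact_mod_cast h3
        have h5 : C * g ^ (m + 4) = C * g ^ (m + 2) + C * g ^ m := by
          rw [pow_add g m 4, hg4, pow_add g m 2]; ring
        rw [h5]; linarith
  have hratio : Tendsto (fun n : ℕ => (c / g) ^ n) atTop (nhds 0) :=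
    tendsto_pow_atTop_nhds_zero_of_lt_one (by positivity) ((div_lt_one hg).2 hcg)
  have hev : ∀ᶠ n : ℕ in atTop, (c / g) ^ n < C := hratio.eventually_lt_const hC
  filter_upwards [hev, eventually_ge_atTop n0] with n h1 h2
  have h3 := hall n h2
  have h4 : c ^ n < C * g ^ n := by
    rw [div_pow, div_lt_iff₀ (by positivity)] at h1
    exact h1
  linarith

end Pool.Agent.Helper54
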