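import Pool.Agent.Lib.Helper54.BestApproxQuad

set_option autoImplicit false

namespace Pool.Agent.Helper54

/-- A sequence of best approximation vectors: `X` is the height, `E` the error vector. -/
structure BASeq (N : (Fin 2 → ℝ) → ℝ) (X : (Fin 3 → ℤ) →+ ℤ)
    (E : (Fin 3 → ℤ) →+ (Fin 2 → ℝ)) (z : ℕ → Fin 3 → ℤ) : Prop where
  norm : IsNorm2 N
  xpos : 0 < X (z 0)
  xmono : StrictMono (fun n => X (z n))
  ranti : StrictAnti (fun n => N (E (z n)))
  best : ∀ n, ∀ w : Fin 3 → ℤ, w ≠ 0 → |X w| < X (z (n + 1)) → N (E (z n)) ≤ N (E w)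

namespace BASeq

variable {N : (Fin 2 → ℝ) → ℝ} {X : (Fin 3 → ℤ) →+ ℤ} {E : (Fin 3 → ℤ) →+ (Fin 2 → ℝ)}
  {z : ℕ → Fin 3 → ℤ} (h : BASeq N X E z)
include h

lemma x_lt {i j : ℕ} (hij : i < j) : X (z i) < X (z j) := h.xmono hij

lemma r_lt {i j : ℕ} (hij : i < j) : N (E (z j)) < N (E (z i)) := h.ranti hij

lemma x_le {i j : ℕ} (hij : i ≤ j) : X (z i) ≤ X (z j) := h.xmono.monotone hij

lemma r_le {i j : ℕ} (hij : i ≤ j) : N (E (z j)) ≤ N (E (z i)) := h.ranti.antitone hij

lemma x_pos (i : ℕ) : 0 < X (z i) := lt_of_lt_of_le h.xpos (h.x_le (Nat.zero_le i))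

lemma r_pos (i : ℕ) : 0 < N (E (z i)) :=
  lt_of_le_of_lt (h.norm.nonneg _) (h.r_lt (Nat.lt_succ_self i))

/-- If a nonzero vector has small error, its height is large. -/
lemma big (n : ℕ) (w : Fin 3 → ℤ) (hw : X w ≠ 0) (hr : N (E w) < N (E (z n))) :
    X (z (n + 1)) ≤ |X w| := by
  by_contra hcon
  have := h.best n w (by rintro rfl; exact hw (map_zero X)) (not_le.1 hcon)
  linarith

omit h in
lemma E_half {w v : Fin 3 → ℤ} (hw : w = v + v) : E w = (2:ℝ) • E v := by
  rw [hw, map_add, two_smul]

lemma N_half {w v : Fin 3 → ℤ} (hw : w = v + v) : N (E w) = 2 * N (E v) := by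
  rw [E_half hw, h.norm.hom]; norm_num

omit h in
lemma X_half {w v : Fin 3 → ℤ} (hw : w = v + v) : X w = 2 * X v := by
  rw [hw, map_add]; ring

/-- The classes modulo two are nonzero. -/
lemma cls_ne (i : ℕ) : cls (z i) ≠ 0 := by
  intro hc
  obtain ⟨v, hv⟩ := half_of_cls hc
  have h1 := h.N_half hv
  have h2 : X (z i) = 2 * X v := X_half hv
  have h3 := h.x_pos i
  have h4 := h.r_pos i
  have h5 := h.x_lt (show i < i + 1 by omega)
  have h6 := h.best i v (by rintro rfl; rw [map_zero] at h2; omega)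
    (by rw [abs_of_pos (by omega)]; show X v < X (z (i + 1)); omega)
  linarith

/-- Two vectors in the same class modulo two are far apart. -/
lemma same_cls {i j : ℕ} (hij : i < j) (hc : cls (z i) + cls (z j) = 0) :
    X (z i) + 2 * X (z (i + 1)) ≤ X (z j) := by
  obtain ⟨v, hv⟩ := half_of_cls (w := z j - z i) (by rw [cls_sub, add_comm]; exact hc)
  have h1 := h.N_half hv
  have h2 : X (z j - z i) = 2 * X v := X_half hv
  rw [map_sub] at h2
  have h3 := h.x_lt hij
  have h4 : N (E (z j - z i)) ≤ N (E (z j)) + N (E (z i)) := by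
    rw [map_sub]; exact h.norm.sub_le _ _
  have h5 := h.r_lt hij
  have h6 := h.big i v (by omega) (by linarith)
  rw [abs_of_pos (by omega)] at h6
  omega

/-- **Fano line lemma.** -/
lemma fano_line {i j k : ℕ} (hij : i < j) (hjk : j < k)
    (hc : cls (z i) + cls (z j) + cls (z k) = 0) : X (z i) + X (z j) ≤ X (z k) := by
  by_contra hcon
  have hcon := not_le.1 hcon
  obtain ⟨m, rfl⟩ : ∃ m, j = m + 1 := ⟨j - 1, by omega⟩
  have him : i ≤ m := by omega
  have hx1 := h.x_lt hij
  have hx2 := h.x_lt hjk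
  have hx0 := h.x_pos i
  have hr1 := h.r_lt hij
  have hr2 := h.r_lt hjk
  have hr3 := h.r_lt (Nat.lt_succ_self m)
  have hr4 := h.r_le him
  have hx3 := h.x_lt (show i < i + 1 by omega)
  obtain ⟨u, hu⟩ := half_of_cls (w := -z i + z (m + 1) + z k)
    (by rw [cls_add, cls_add, cls_neg]; exact hc)
  obtain ⟨v, hv⟩ := half_of_cls (w := z i - z (m + 1) + z k)
    (by rw [cls_add, cls_sub]; exact hc)
  obtain ⟨w, hw⟩ := half_of_cls (w := z i + z (m + 1) - z k)
    (by rw [cls_sub, cls_add]; exact hc)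
  have xu : X (-z i + z (m + 1) + z k) = 2 * X u := X_half hu
  have xv : X (z i - z (m + 1) + z k) = 2 * X v := X_half hv
  have xw : X (z i + z (m + 1) - z k) = 2 * X w := X_half hw
  simp only [map_add, map_sub, map_neg] at xu xv xw
  have nu := h.N_half hu
  have nv := h.N_half hv
  have nw := h.N_half hw
  simp only [map_add, map_sub, map_neg] at nu nv nw
  have ne0 : ∀ t : Fin 3 → ℤ, X t ≠ 0 → t ≠ 0 := by
    rintro t ht rfl; exact ht (map_zero X)
  have bu := h.best m u (ne0 _ (by omega)) (by rw [abs_of_pos (by omega)]; omega)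
  have bv := h.best i v (ne0 _ (by omega)) (by rw [abs_of_pos (by omega)]; omega)
  have bw := h.best i w (ne0 _ (by omega)) (by rw [abs_of_pos (by omega)]; omega)
  have d1 := h.best i (z (m + 1) - z k) (ne0 _ (by rw [map_sub]; omega))
    (by rw [map_sub, abs_of_neg (by omega)]; omega)
  have d2 := h.best m (z i - z k) (ne0 _ (by rw [map_sub]; omega))
    (by rw [map_sub, abs_of_neg (by omega)]; omega)
  have d3 := h.best m (z i - z (m + 1)) (ne0 _ (by rw [map_sub]; omega))
    (by rw [map_sub, abs_of_neg (by omega)]; omega)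
  rw [map_sub] at d1 d2 d3
  exact h.norm.fano_norm (E (z i)) (E (z (m + 1))) (E (z k)) (N (E (z m))) hr1 hr2 hr3
    (by rw [nu]; linarith) (by rw [nv]; linarith) (by rw [nw]; linarith) d1 d2 d3

/-- **Violation lemma.** -/
lemma viol (n : ℕ) (hV : X (z (n + 3)) < X (z (n + 1)) + X (z n)) :
    z n + z (n + 3) = z (n + 1) + z (n + 2) := by
  have x01 := h.x_lt (show n < n + 1 by omega)
  have x12 := h.x_lt (show n + 1 < n + 2 by omega)
  have x23 := h.x_lt (show n + 2 < n + 3 by omega)
  have x0 := h.x_pos n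
  have r01 := h.r_lt (show n < n + 1 by omega)
  have r12 := h.r_lt (show n + 1 < n + 2 by omega)
  have r23 := h.r_lt (show n + 2 < n + 3 by omega)
  have same : ∀ i j, n ≤ i → i < j → j ≤ n + 3 → cls (z i) + cls (z j) ≠ 0 := by
    intro i j hi hij hj hc
    have h1 := h.same_cls hij hc
    have h2 := h.x_le hj
    have h3 := h.x_le hi
    have h4 := h.x_le (show n + 1 ≤ i + 1 by omega)
    have h5 := h.x_pos (n + 1)
    omega
  have line : ∀ i j k, n ≤ i → i < j → j < k → k ≤ n + 3 →
      cls (z i) + cls (z j) + cls (z k) ≠ 0 := by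
    intro i j k hi hij hjk hk hc
    have h1 := h.fano_line hij hjk hc
    have h2 := h.x_le hk
    have h3 := h.x_le hi
    have h4 := h.x_le (show n + 1 ≤ j by omega)
    omega
  have hsum : cls (z n) + cls (z (n + 1)) + cls (z (n + 2)) + cls (z (n + 3)) = 0 := by
    apply fano4 _ _ _ _ (h.cls_ne _) (h.cls_ne _) (h.cls_ne _) (h.cls_ne _)
    · exact same n (n + 1) (by omega) (by omega) (by omega)
    · exact same n (n + 2) (by omega) (by omega) (by omega)
    · exact same n (n + 3) (by omega) (by omega) (by omega)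
    · exact same (n + 1) (n + 2) (by omega) (by omega) (by omega)
    · exact same (n + 1) (n + 3) (by omega) (by omega) (by omega)
    · exact same (n + 2) (n + 3) (by omega) (by omega) (by omega)
    · exact line n (n + 1) (n + 2) (by omega) (by omega) (by omega) (by omega)
    · exact line n (n + 1) (n + 3) (by omega) (by omega) (by omega) (by omega)
    · exact line n (n + 2) (n + 3) (by omega) (by omega) (by omega) (by omega)
    · exact line (n + 1) (n + 2) (n + 3) (by omega) (by omega) (by omega) (by omega)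
  have ne0 : ∀ t : Fin 3 → ℤ, X t ≠ 0 → t ≠ 0 := by
    rintro t ht rfl; exact ht (map_zero X)
  have dd : ∀ i j, n ≤ i → i < j → j ≤ n + 3 → N (E (z n)) ≤ N (E (z i) - E (z j)) := by
    intro i j hi hij hj
    have h1 := h.x_lt hij
    have h2 := h.x_le hj
    have h3 := h.x_le hi
    have := h.best n (z i - z j) (ne0 _ (by rw [map_sub]; omega))
      (by rw [map_sub, abs_of_neg (by omega)]; omega)
    rwa [map_sub] at this
  obtain ⟨u, hu⟩ := half_of_cls (w := z n + z (n + 1) - z (n + 2) - z (n + 3))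
    (by rw [cls_sub, cls_sub, cls_add]; exact hsum)
  obtain ⟨v, hv⟩ := half_of_cls (w := z n + z (n + 2) - z (n + 1) - z (n + 3))
    (by rw [cls_sub, cls_sub, cls_add, ← hsum]; abel)
  obtain ⟨w, hw⟩ := half_of_cls (w := z n + z (n + 3) - z (n + 1) - z (n + 2))
    (by rw [cls_sub, cls_sub, cls_add, ← hsum]; abel)
  have xu : X (z n + z (n + 1) - z (n + 2) - z (n + 3)) = 2 * X u := X_half hu
  have xv : X (z n + z (n + 2) - z (n + 1) - z (n + 3)) = 2 * X v := X_half hv
  have xw : X (z n + z (n + 3) - z (n + 1) - z (n + 2)) = 2 * X w := X_half hw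
  simp only [map_add, map_sub] at xu xv xw
  have nu := h.N_half hu
  have nv := h.N_half hv
  have nw := h.N_half hw
  simp only [map_add, map_sub] at nu nv nw
  rcases h.norm.quad_norm (E (z n)) (E (z (n + 1))) (E (z (n + 2))) (E (z (n + 3)))
    (N (E (z n))) le_rfl r01 (by linarith) (by linarith)
    (dd _ _ (by omega) (by omega) (by omega)) (dd _ _ (by omega) (by omega) (by omega))
    (dd _ _ (by omega) (by omega) (by omega)) (dd _ _ (by omega) (by omega) (by omega))
    (dd _ _ (by omega) (by omega) (by omega)) (dd _ _ (by omega) (by omega) (by omega))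
    with hh | hh | hh
  · exfalso
    have := h.best n u (ne0 _ (by omega)) (by rw [abs_of_neg (by omega)]; omega)
    linarith
  · exfalso
    have := h.best n v (ne0 _ (by omega)) (by rw [abs_of_neg (by omega)]; omega)
    linarith
  · by_cases hw0 : w = 0
    · rw [hw0, add_zero] at hw
      have : z n + z (n + 3) - (z (n + 1) + z (n + 2)) = 0 := by rw [← hw]; abel
      exact sub_eq_zero.1 this
    · exfalso
      have := h.best n w hw0 (by rw [abs_lt]; constructor <;> omega)
      linarith

/-- No two consecutive violations. -/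
lemma no_two_viol (n : ℕ) (hV : X (z (n + 3)) < X (z (n + 1)) + X (z n))
    (hV' : X (z (n + 4)) < X (z (n + 2)) + X (z (n + 1))) : False := by
  have e1 := h.viol n hV
  have e2 := h.viol (n + 1) hV'
  have e2' : z (n + 1) + z (n + 4) = z (n + 2) + z (n + 3) := e2
  have e3 : z (n + 4) - z n = (z (n + 2) - z n) + (z (n + 2) - z n) := by
    have a1 : z (n + 3) = z (n + 1) + z (n + 2) - z n := by rw [← e1]; abel
    have a2 : z (n + 4) = z (n + 2) + z (n + 3) - z (n + 1) := by rw [← e2']; abel
    rw [a2, a1]; abel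
  have x01 := h.x_lt (show n < n + 1 by omega)
  have x12 := h.x_lt (show n + 1 < n + 2 by omega)
  have x23 := h.x_lt (show n + 2 < n + 3 by omega)
  have x0 := h.x_pos n
  have n1 := h.N_half e3
  have n2 : N (E (z (n + 4) - z n)) ≤ N (E (z (n + 4))) + N (E (z n)) := by
    rw [map_sub]; exact h.norm.sub_le _ _
  have r := h.r_lt (show n < n + 4 by omega)
  have := h.big n (z (n + 2) - z n) (by rw [map_sub]; omega) (by linarith)
  rw [map_sub, abs_of_pos (by omega)] at this
  omega

/-- **Universal growth inequality.** -/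
theorem growth4 (n : ℕ) : X (z (n + 2)) + X (z n) ≤ X (z (n + 4)) := by
  have x01 := h.x_lt (show n < n + 1 by omega)
  by_cases hV' : X (z (n + 4)) < X (z (n + 2)) + X (z (n + 1))
  · by_cases hV : X (z (n + 3)) < X (z (n + 1)) + X (z n)
    · exact (h.no_two_viol n hV hV').elim
    · have e2 : z (n + 1) + z (n + 4) = z (n + 2) + z (n + 3) := h.viol (n + 1) hV'
      have := congrArg X e2
      rw [map_add, map_add] at this
      omega
  · omega

end BASeq

end Pool.Agent.Helper54
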