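import Pool.Agent.Lib.Helper54.BestApproxPhi

set_option autoImplicit false

namespace Pool.Agent.Helper54

open Filter

/-! ### The extremal example: `θ = (φ, φ ^ 2)` and a Euclidean norm adapted to it. -/

/-- Shifted Padovan numbers `2, 3, 4, 5, 7, 9, 12, ...`. -/
def pad : ℕ → ℕ
  | 0 => 2
  | 1 => 3
  | 2 => 4
  | (n + 3) => pad (n + 1) + pad n

lemma pad_rec (n : ℕ) : pad (n + 3) = pad (n + 1) + pad n := rfl

lemma pad_lt_succ (n : ℕ) : pad n < pad (n + 1) := by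
  induction n using Nat.strong_induction_on with
  | _ n ih =>
    match n with
    | 0 => decide
    | 1 => decide
    | 2 => decide
    | 3 => decide
    | (m + 4) =>
      have h1 : pad (m + 1) < pad (m + 2) := ih (m + 1) (by omega)
      have h2 : pad (m + 2) < pad (m + 3) := ih (m + 2) (by omega)
      have e1 : pad (m + 4) = pad (m + 2) + pad (m + 1) := rfl
      have e2 : pad (m + 5) = pad (m + 3) + pad (m + 2) := rfl
      show pad (m + 4) < pad (m + 5)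
      rw [e1, e2]
      omega

lemma pad_strictMono : StrictMono pad := strictMono_nat_of_lt_succ pad_lt_succ

/-- The norm form. -/
def G3 (x y z : ℤ) : ℤ :=
  z ^ 3 - y ^ 2 * z + y ^ 3 - x * z ^ 2 - 3 * x * y * z + x * y ^ 2 + 2 * x ^ 2 * y + x ^ 3

lemma G3_pad (n : ℕ) : G3 (pad n) (pad (n + 1)) (pad (n + 2)) = 1 := by
  induction n with
  | zero => decide
  | succ n ih =>
    rw [← ih]
    have e : (pad (n + 1 + 2) : ℤ) = pad (n + 1) + pad n := by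
      have := pad_rec n
      exact_mod_cast this
    rw [show n + 1 + 1 = n + 2 by omega, e]
    simp only [G3]; ring

section

variable {φ : ℝ} (hφ : φ ^ 3 = φ + 1)
include hφ

lemma phi_bounds : 6 / 5 < φ ∧ φ < 7 / 5 := by
  have h1 := phi_gt_one hφ
  constructor
  · by_contra h
    have h := not_lt.1 h
    nlinarith [mul_nonneg (sub_nonneg.2 h) (sub_nonneg.2 h1.le), mul_pos (by linarith : 0 < φ) (by linarith : 0 < φ)]
  · by_contra h
    have h := not_lt.1 h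
    nlinarith [mul_nonneg (sub_nonneg.2 h) (sub_nonneg.2 h), mul_pos (by linarith : 0 < φ) (by linarith : 0 < φ)]

/-- The quadratic form. -/
lemma norm_form (x y z : ℝ) :
    (x + φ ^ 2 * y + φ * z) * ((φ ^ 2 * x - z) ^ 2 - φ * (φ * x - y) * (φ ^ 2 * x - z)
      + (φ ^ 2 - 1) * (φ * x - y) ^ 2)
    = φ * (z ^ 3 - y ^ 2 * z + y ^ 3 - x * z ^ 2 - 3 * x * y * z + x * y ^ 2 + 2 * x ^ 2 * y
      + x ^ 3) := by
  have h3 : φ ^ 3 = φ + 1 := hφ
  have h4 : φ ^ 4 = φ ^ 2 + φ := by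
    have : φ ^ 4 = φ * φ ^ 3 := by ring
    rw [this, h3]; ring
  have h5 : φ ^ 5 = φ ^ 2 + φ + 1 := by
    have : φ ^ 5 = φ * φ ^ 4 := by ring
    rw [this, h4]
    have : φ * (φ ^ 2 + φ) = φ ^ 3 + φ ^ 2 := by ring
    rw [this, h3]; ring
  have h6 : φ ^ 6 = φ ^ 2 + 2 * φ + 1 := by
    have : φ ^ 6 = φ ^ 3 * φ ^ 3 := by ring
    rw [this, h3]; ring
  ring_nf
  simp only [h3, h4, h5, h6]
  ring

lemma phi_irr (q a : ℤ) (hq : q ≠ 0) (h : (q : ℝ) * φ = a) : False := by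
  have hqr : (q : ℝ) ≠ 0 := by exact_mod_cast hq
  have h1 : (a : ℝ) ^ 3 = a * q ^ 2 + q ^ 3 := by
    rw [← h]
    have : ((q : ℝ) * φ) ^ 3 = q ^ 3 * φ ^ 3 := by ring
    rw [this, hφ]; ring
  have h2 : a ^ 3 = a * q ^ 2 + q ^ 3 := by exact_mod_cast h1
  -- divide by the gcd
  obtain ⟨g, a', q', hg, hcop, ha, hqq⟩ : ∃ g a' q' : ℤ, g ≠ 0 ∧ IsCoprime a' q' ∧
      a = a' * g ∧ q = q' * g := by
    have hpos : 0 < Int.gcd a q := Int.gcd_pos_of_ne_zero_right _ hq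
    obtain ⟨g, m, n, hgpos, hc, hm, hn⟩ := Int.exists_gcd_one' hpos
    exact ⟨g, m, n, by exact_mod_cast hgpos.ne', Int.isCoprime_iff_gcd_eq_one.2 hc, hm, hn⟩
  have h3 : a' ^ 3 = a' * q' ^ 2 + q' ^ 3 := by
    have h4 : g ^ 3 * a' ^ 3 = g ^ 3 * (a' * q' ^ 2 + q' ^ 3) := by
      rw [ha, hqq] at h2
      linear_combination h2
    exact mul_left_cancel₀ (pow_ne_zero 3 hg) h4
  have hne : ¬ (2 ∣ a' ∧ 2 ∣ q') := by
    rintro ⟨h5, h6⟩
    have := hcop.isUnit_of_dvd' h5 h6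
    rw [Int.isUnit_iff] at this
    omega
  rcases Int.even_or_odd' a' with ⟨k, hk | hk⟩ <;> rcases Int.even_or_odd' q' with ⟨l, hl | hl⟩
  · exact hne ⟨⟨k, hk⟩, ⟨l, hl⟩⟩
  · rw [hk, hl] at h3
    have : (2 * k) ^ 3 - (2 * k) * (2 * l + 1) ^ 2 - (2 * l + 1) ^ 3
        = 2 * (4 * k ^ 3 - k * (2 * l + 1) ^ 2 - 4 * l ^ 3 - 6 * l ^ 2 - 3 * l) - 1 := by ring
    omega
  · rw [hk, hl] at h3
    have : (2 * k + 1) ^ 3 - (2 * k + 1) * (2 * l) ^ 2 - (2 * l) ^ 3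
        = 2 * (4 * k ^ 3 + 6 * k ^ 2 + 3 * k - (2 * k + 1) * 2 * l ^ 2 - 4 * l ^ 3) + 1 := by ring
    omega
  · rw [hk, hl] at h3
    have : (2 * k + 1) ^ 3 - (2 * k + 1) * (2 * l + 1) ^ 2 - (2 * l + 1) ^ 3
        = 2 * (4 * k ^ 3 + 6 * k ^ 2 + 3 * k - k * (2 * l + 1) ^ 2 - 2 * l ^ 2 - 2 * l
            - 4 * l ^ 3 - 6 * l ^ 2 - 3 * l) - 1 := by ring
    omega

end

end Pool.Agent.Helper54
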