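import Pool.Agent.Lib.Helper54.BestApproxSharp

set_option autoImplicit false

namespace Pool.Agent.Helper54

open Filter

/-- The adapted Euclidean norm. -/
noncomputable def eN (φ : ℝ) (x : Fin 2 → ℝ) : ℝ :=
  ‖(⟨x 1 - φ / 2 * x 0, Real.sqrt (3 * φ ^ 2 - 4) / 2 * x 0⟩ : ℂ)‖

/-- The extremal vector. -/
noncomputable def eθ (φ : ℝ) : Fin 2 → ℝ := ![φ, φ ^ 2]

section

variable {φ : ℝ} (hφ : φ ^ 3 = φ + 1)
include hφ

lemma disc_pos : 8 / 25 < 3 * φ ^ 2 - 4 := by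
  have := (phi_bounds hφ).1
  nlinarith

lemma eN_sq (x : Fin 2 → ℝ) :
    eN φ x ^ 2 = (x 1) ^ 2 - φ * x 0 * x 1 + (φ ^ 2 - 1) * (x 0) ^ 2 := by
  have hd := disc_pos hφ
  have hs : Real.sqrt (3 * φ ^ 2 - 4) ^ 2 = 3 * φ ^ 2 - 4 := Real.sq_sqrt (by linarith)
  rw [eN, Complex.sq_norm, Complex.normSq_mk]
  have : Real.sqrt (3 * φ ^ 2 - 4) / 2 * x 0 * (Real.sqrt (3 * φ ^ 2 - 4) / 2 * x 0)
      = Real.sqrt (3 * φ ^ 2 - 4) ^ 2 / 4 * (x 0) ^ 2 := by ring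
  rw [this, hs]
  ring

lemma eN_norm : IsNorm2 (eN φ) := by
  have hd := disc_pos hφ
  have hs : 0 < Real.sqrt (3 * φ ^ 2 - 4) := Real.sqrt_pos.2 (by linarith)
  refine ⟨?_, ?_, ?_⟩
  · intro x hx
    rw [eN, norm_eq_zero] at hx
    have h1 := congrArg Complex.re hx
    have h2 := congrArg Complex.im hx
    simp only [Complex.zero_re, Complex.zero_im] at h1 h2
    have h0 : x 0 = 0 := by
      rcases mul_eq_zero.1 h2 with h | h
      · linarith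
      · exact h
    have h1' : x 1 = 0 := by rw [h0] at h1; linarith
    ext i; fin_cases i
    · exact h0
    · exact h1'
  · intro x y
    have : (⟨(x + y) 1 - φ / 2 * (x + y) 0, Real.sqrt (3 * φ ^ 2 - 4) / 2 * (x + y) 0⟩ : ℂ)
        = ⟨x 1 - φ / 2 * x 0, Real.sqrt (3 * φ ^ 2 - 4) / 2 * x 0⟩
          + ⟨y 1 - φ / 2 * y 0, Real.sqrt (3 * φ ^ 2 - 4) / 2 * y 0⟩ := by
      apply Complex.ext
      · simp only [Complex.add_re, Pi.add_apply]; ring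
      · simp only [Complex.add_im, Pi.add_apply]; ring
    rw [eN, this]
    exact norm_add_le _ _
  · intro r x
    have : (⟨(r • x) 1 - φ / 2 * (r • x) 0, Real.sqrt (3 * φ ^ 2 - 4) / 2 * (r • x) 0⟩ : ℂ)
        = (r : ℂ) * ⟨x 1 - φ / 2 * x 0, Real.sqrt (3 * φ ^ 2 - 4) / 2 * x 0⟩ := by
      apply Complex.ext
      · simp only [Complex.mul_re, Complex.ofReal_re, Complex.ofReal_im, Pi.smul_apply,
          smul_eq_mul]; ring
      · simp only [Complex.mul_im, Complex.ofReal_re, Complex.ofReal_im, Pi.smul_apply,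
          smul_eq_mul]; ring
    rw [eN, this, norm_mul, Complex.norm_real, Real.norm_eq_abs]
    rfl

lemma eN_par (x y : Fin 2 → ℝ) :
    eN φ (x + y) ^ 2 + eN φ (x - y) ^ 2 = 2 * eN φ x ^ 2 + 2 * eN φ y ^ 2 := by
  rw [eN_sq hφ, eN_sq hφ, eN_sq hφ, eN_sq hφ]
  simp only [Pi.add_apply, Pi.sub_apply]
  ring

lemma eθ_adm : ∀ q : ℤ, q ≠ 0 → ¬ ∀ i : Fin 2, ∃ a : ℤ, (q : ℝ) * eθ φ i = (a : ℝ) := by
  intro q hq hall
  obtain ⟨a, ha⟩ := hall 0
  exact phi_irr hφ q a hq (by simpa [eθ] using ha)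

/-- Bound for the correction term. -/
lemma corr_bound (x : Fin 2 → ℝ) : (φ ^ 2 * x 0 + φ * x 1) ^ 2 ≤ 400 * eN φ x ^ 2 := by
  rw [eN_sq hφ]
  obtain ⟨h1, h2⟩ := phi_bounds hφ
  have hd := disc_pos hφ
  have e1 : (x 1) ^ 2 - φ * x 0 * x 1 + (φ ^ 2 - 1) * (x 0) ^ 2
      = (x 1 - φ / 2 * x 0) ^ 2 + (3 * φ ^ 2 - 4) / 4 * (x 0) ^ 2 := by ring
  have e2 : φ ^ 2 * x 0 + φ * x 1 = φ * (x 1 - φ / 2 * x 0) + 3 / 2 * φ ^ 2 * x 0 := by ring
  rw [e1, e2]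
  set t := x 1 - φ / 2 * x 0
  set y := x 0
  have hsq : φ ^ 2 ≤ 2 := by nlinarith
  have hq : φ ^ 2 * φ ^ 2 ≤ 4 := by nlinarith [sq_nonneg φ]
  have a1 : (φ * t + 3 / 2 * φ ^ 2 * y) ^ 2 ≤ 2 * φ ^ 2 * t ^ 2 + 9 / 2 * (φ ^ 2 * φ ^ 2) * y ^ 2 := by
    nlinarith [sq_nonneg (φ * t - 3 / 2 * φ ^ 2 * y)]
  have a2 : 2 * φ ^ 2 * t ^ 2 ≤ 4 * t ^ 2 := by nlinarith [sq_nonneg t]
  have a3 : 9 / 2 * (φ ^ 2 * φ ^ 2) * y ^ 2 ≤ 18 * y ^ 2 := by nlinarith [sq_nonneg y]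
  have a4 : 18 * y ^ 2 ≤ 400 * ((3 * φ ^ 2 - 4) / 4 * y ^ 2) := by nlinarith [sq_nonneg y]
  nlinarith [sq_nonneg t]

omit hφ in
/-- The error vector of an integer vector. -/
lemma err_vals (x y z : ℤ) : err (eθ φ) ![x, y, z] 0 = x * φ - y ∧
    err (eθ φ) ![x, y, z] 1 = x * φ ^ 2 - z := by
  constructor <;> simp [err, eθ]

/-- The linear form. -/
lemma lin_form (x y z : ℝ) : x + φ ^ 2 * y + φ * z
    = (2 * φ + 3) * x - (φ ^ 2 * (x * φ - y) + φ * (x * φ ^ 2 - z)) := by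
  have : φ ^ 2 * (x * φ - y) + φ * (x * φ ^ 2 - z) = 2 * φ ^ 3 * x - φ ^ 2 * y - φ * z := by ring
  rw [this, hφ]; ring

lemma form_eq (x y z : ℤ) :
    ((x : ℝ) + φ ^ 2 * y + φ * z) * eN φ (err (eθ φ) ![x, y, z]) ^ 2 = φ * (G3 x y z : ℝ) := by
  obtain ⟨h0, h1⟩ := err_vals (φ := φ) x y z
  rw [eN_sq hφ, h0, h1]
  have := norm_form hφ (x : ℝ) y z
  simp only [G3]
  push_cast
  rw [← this]
  ring

/-- Value of the linear form at the Padovan vectors. -/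
lemma lin_pad (n : ℕ) : φ ^ n ≤ (pad n : ℝ) + φ ^ 2 * pad (n + 1) + φ * pad (n + 2) := by
  have h1 := phi_gt_one hφ
  induction n with
  | zero =>
    have e0 : (pad 0 : ℝ) = 2 := by norm_num [pad]
    have e1 : (pad (0 + 1) : ℝ) = 3 := by norm_num [pad]
    have e2 : (pad (0 + 2) : ℝ) = 4 := by norm_num [pad]
    rw [e0, e1, e2]
    nlinarith [sq_nonneg φ]
  | succ n ih =>
    have e : (pad (n + 1 + 2) : ℝ) = pad (n + 1) + pad n := by
      have := pad_rec n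
      exact_mod_cast this
    have e' : (pad (n + 1 + 1) : ℝ) = pad (n + 2) := rfl
    rw [e, e']
    have h2 : φ * φ ^ n ≤ φ * ((pad n : ℝ) + φ ^ 2 * pad (n + 1) + φ * pad (n + 2)) :=
      mul_le_mul_of_nonneg_left ih (by linarith)
    have h3 : φ * ((pad n : ℝ) + φ ^ 2 * pad (n + 1) + φ * pad (n + 2))
        = φ * pad n + φ ^ 3 * pad (n + 1) + φ ^ 2 * pad (n + 2) := by ring
    rw [h3, hφ] at h2
    calc φ ^ (n + 1) = φ * φ ^ n := by ring
      _ ≤ _ := h2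
      _ = _ := by ring

lemma pad_le (n : ℕ) : (pad n : ℝ) ≤ 4 * φ ^ n := by
  have h1 := phi_gt_one hφ
  induction n using Nat.strong_induction_on with
  | _ n ih =>
    match n with
    | 0 => norm_num [pad]
    | 1 => have : (pad 1 : ℝ) = 3 := by norm_num [pad]
           rw [this]; linarith
    | 2 => have : (pad 2 : ℝ) = 4 := by norm_num [pad]
           rw [this]; nlinarith
    | (m + 3) =>
      have a1 := ih m (by omega)
      have a2 := ih (m + 1) (by omega)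
      have e : (pad (m + 3) : ℝ) = pad (m + 1) + pad m := by
        have := pad_rec m
        exact_mod_cast this
      have e2 : 4 * φ ^ (m + 3) = 4 * φ ^ (m + 1) + 4 * φ ^ m := by
        rw [pow_add φ m 3, hφ]; ring
      rw [e, e2]; linarith

/-- All large Padovan numbers are record times. -/
theorem pad_rec_times : ∃ n0 : ℕ, ∀ n, n0 ≤ n → isRec (eN φ) (eθ φ) (pad n) := by
  have h1 := phi_gt_one hφ
  have hφ0 : 0 < φ := by linarith
  have hN := eN_norm hφ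
  obtain ⟨n0, hn0⟩ := pow_unbounded_of_one_lt (400 * φ) h1
  refine ⟨n0, ?_⟩
  intro n hn
  have hbig : 400 * φ < φ ^ n := hn0.trans_le (pow_le_pow_right₀ h1.le hn)
  have hposn : 0 < pad n := by
    have : pad 0 ≤ pad n := pad_strictMono.monotone (Nat.zero_le n)
    have h2 : pad 0 = 2 := rfl
    omega
  refine ⟨hposn, ?_⟩
  intro j hj hjn
  by_contra hcon
  have hcon := not_lt.1 hcon
  -- the Padovan vector
  set wn : Fin 3 → ℤ := ![(pad n : ℤ), (pad (n + 1) : ℤ), (pad (n + 2) : ℤ)] with hwn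
  have hle : latDist (eN φ) (eθ φ) (pad n) ≤ eN φ (err (eθ φ) wn) := by
    have h2 := latDist_le hN (θ := eθ φ) (pad n) ![(pad (n + 1) : ℤ), (pad (n + 2) : ℤ)]
    have h3 : (fun i => ((pad n : ℕ) : ℝ) * eθ φ i
        - ((![(pad (n + 1) : ℤ), (pad (n + 2) : ℤ)] i : ℤ) : ℝ)) = err (eθ φ) wn := by
      ext i
      fin_cases i <;> simp [err, hwn]
    rw [h3] at h2
    exact h2
  obtain ⟨a, ha⟩ := latDist_attained hN (θ := eθ φ) j
  set w : Fin 3 → ℤ := ![(j : ℤ), a 0, a 1] with hw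
  have hNw : eN φ (err (eθ φ) w) = latDist (eN φ) (eθ φ) j := by
    rw [← ha]
    have h3 : (fun i => ((j : ℕ) : ℝ) * eθ φ i - ((a i : ℤ) : ℝ)) = err (eθ φ) w := by
      ext i
      fin_cases i <;> simp [err, hw]
    rw [h3]
  have hle2 : eN φ (err (eθ φ) w) ≤ eN φ (err (eθ φ) wn) := by
    rw [hNw]; exact hcon.trans hle
  have hsq : eN φ (err (eθ φ) w) ^ 2 ≤ eN φ (err (eθ φ) wn) ^ 2 :=
    pow_le_pow_left₀ (hN.nonneg _) hle2 2
  -- values of the cubic form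
  have f1 := form_eq hφ (pad n : ℤ) (pad (n + 1) : ℤ) (pad (n + 2) : ℤ)
  rw [G3_pad n] at f1
  have f2 := form_eq hφ (j : ℤ) (a 0) (a 1)
  rw [← hwn] at f1
  rw [← hw] at f2
  have hLn := lin_pad hφ n
  push_cast at f1 f2
  set Ln : ℝ := (pad n : ℝ) + φ ^ 2 * pad (n + 1) + φ * pad (n + 2) with hLndef
  set Lw : ℝ := (j : ℝ) + φ ^ 2 * a 0 + φ * a 1 with hLwdef
  set Qn : ℝ := eN φ (err (eθ φ) wn) ^ 2 with hQn
  set Qw : ℝ := eN φ (err (eθ φ) w) ^ 2 with hQw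
  have hLnpos : 0 < Ln := lt_of_lt_of_le (by positivity) hLn
  have hQn_small : 400 * Qn < 1 := by
    have h2 : 400 * φ < Ln := hbig.trans_le hLn
    have h3 : Qn = φ / Ln := by rw [eq_div_iff hLnpos.ne']; linarith
    rw [h3, mul_div_assoc', div_lt_one hLnpos]
    exact h2
  -- corrections
  obtain ⟨c0, c1⟩ := err_vals (φ := φ) (pad n : ℤ) (pad (n + 1) : ℤ) (pad (n + 2) : ℤ)
  obtain ⟨d0, d1⟩ := err_vals (φ := φ) (j : ℤ) (a 0) (a 1)
  have b1 := corr_bound hφ (err (eθ φ) wn)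
  have b2 := corr_bound hφ (err (eθ φ) w)
  rw [← hwn] at c0 c1
  rw [← hw] at d0 d1
  rw [c0, c1] at b1
  rw [d0, d1] at b2
  push_cast at b1 b2
  have l1 := lin_form hφ (pad n : ℝ) (pad (n + 1)) (pad (n + 2))
  have l2 := lin_form hφ (j : ℝ) (a 0) (a 1)
  set cn : ℝ := φ ^ 2 * ((pad n : ℝ) * φ - pad (n + 1)) + φ * ((pad n : ℝ) * φ ^ 2 - pad (n + 2))
    with hcn
  set cw : ℝ := φ ^ 2 * ((j : ℝ) * φ - a 0) + φ * ((j : ℝ) * φ ^ 2 - a 1) with hcw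
  have hcn1 : cn ^ 2 < 1 := by linarith
  have hcw1 : cw ^ 2 < 1 := by linarith
  have hcn2 := abs_lt.1 ((sq_lt_one_iff_abs_lt_one cn).1 hcn1)
  have hcw2 := abs_lt.1 ((sq_lt_one_iff_abs_lt_one cw).1 hcw1)
  have hj1 : (1 : ℝ) ≤ j := by exact_mod_cast hj
  have hjn1 : (j : ℝ) + 1 ≤ pad n := by exact_mod_cast hjn
  have hLwpos : 0 < Lw := by
    have m1 : (2 * φ + 3) * 1 ≤ (2 * φ + 3) * (j : ℝ) :=
      mul_le_mul_of_nonneg_left hj1 (by linarith)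
    have m2 : Lw = (2 * φ + 3) * (j : ℝ) - cw := l2
    linarith [hcw2.2]
  have hLlt : Lw < Ln := by
    have m1 : (2 * φ + 3) * ((j : ℝ) + 1) ≤ (2 * φ + 3) * (pad n : ℝ) :=
      mul_le_mul_of_nonneg_left hjn1 (by linarith)
    have m2 : Lw = (2 * φ + 3) * (j : ℝ) - cw := l2
    have m3 : Ln = (2 * φ + 3) * (pad n : ℝ) - cn := l1
    linarith [hcw2.1, hcn2.2]
  have hQw0 : 0 ≤ Qw := sq_nonneg _
  have hQnpos : 0 < Qn := by
    have h5 : 0 < Ln * Qn := by rw [f1]; linarith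
    exact (mul_pos_iff_of_pos_left hLnpos).1 h5
  have hprod : Lw * Qw < Ln * Qn := by
    have m1 : Lw * Qw ≤ Lw * Qn := mul_le_mul_of_nonneg_left hsq hLwpos.le
    have m2 : Lw * Qn < Ln * Qn := mul_lt_mul_of_pos_right hLlt hQnpos
    linarith
  have hG : (G3 (j : ℤ) (a 0) (a 1) : ℝ) < 1 := by
    rw [f1, f2] at hprod
    exact lt_of_mul_lt_mul_left hprod hφ0.le
  have hG0 : (0 : ℝ) ≤ (G3 (j : ℤ) (a 0) (a 1) : ℝ) := by
    have : 0 ≤ Lw * Qw := mul_nonneg hLwpos.le hQw0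
    rw [f2] at this
    exact (mul_nonneg_iff_of_pos_left hφ0).1 this
  have hGz : G3 (j : ℤ) (a 0) (a 1) = 0 := by
    have a1 : G3 (j : ℤ) (a 0) (a 1) < 1 := by exact_mod_cast hG
    have a2 : 0 ≤ G3 (j : ℤ) (a 0) (a 1) := by exact_mod_cast hG0
    omega
  rw [hGz] at f2
  have hQw_zero : Qw = 0 := by
    have : Lw * Qw = 0 := by rw [f2]; simp
    rcases mul_eq_zero.1 this with h | h
    · exact absurd h hLwpos.ne'
    · exact h
  have hpos := latDist_pos hN (eθ_adm hφ) j hj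
  rw [← hNw] at hpos
  have : 0 < Qw := pow_pos hpos 2
  linarith

/-- The sharpness half: a Euclidean norm and a vector with growth at most `φ`. -/
theorem sharp (ε : ℝ) (hε : 0 < ε) :
    ∃ c : ℝ, 0 < c ∧ c < φ + ε ∧
      ∀ᶠ ν in atTop, (Nat.nth (isRec (eN φ) (eθ φ)) ν : ℝ) < c ^ ν := by
  have h1 := phi_gt_one hφ
  have hφ0 : 0 < φ := by linarith
  have hN := eN_norm hφ
  have hinf := rec_infinite hN (eθ_adm hφ)
  obtain ⟨n0, hn0⟩ := pad_rec_times hφ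
  classical
  have hcount : ∀ ν, ν ≤ Nat.count (isRec (eN φ) (eθ φ)) (pad (n0 + ν)) := by
    intro ν
    induction ν with
    | zero => exact Nat.zero_le _
    | succ ν ih =>
      have a1 : Nat.count (isRec (eN φ) (eθ φ)) (pad (n0 + ν) + 1)
          ≤ Nat.count (isRec (eN φ) (eθ φ)) (pad (n0 + (ν + 1))) :=
        Nat.count_monotone _ (pad_strictMono (show n0 + ν < n0 + (ν + 1) by omega))
      rw [Nat.count_succ, if_pos (hn0 (n0 + ν) (by omega))] at a1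
      omega
  have hle : ∀ ν, Nat.nth (isRec (eN φ) (eθ φ)) ν ≤ pad (n0 + ν) := by
    intro ν
    have a1 := (Nat.nth_strictMono hinf).monotone (hcount ν)
    rwa [Nat.nth_count (hn0 (n0 + ν) (by omega))] at a1
  refine ⟨φ + ε / 2, by linarith, by linarith, ?_⟩
  have hratio : Tendsto (fun ν : ℕ => 4 * φ ^ n0 * (φ / (φ + ε / 2)) ^ ν) atTop (nhds 0) := by
    have := (tendsto_pow_atTop_nhds_zero_of_lt_one (r := φ / (φ + ε / 2)) (by positivity)
      ((div_lt_one (by linarith)).2 (by linarith))).const_mul (4 * φ ^ n0)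
    rwa [mul_zero] at this
  filter_upwards [hratio.eventually_lt_const one_pos] with ν hν
  have a1 : (Nat.nth (isRec (eN φ) (eθ φ)) ν : ℝ) ≤ pad (n0 + ν) := by exact_mod_cast hle ν
  have a2 := pad_le hφ (n0 + ν)
  have a3 : 4 * φ ^ (n0 + ν) < (φ + ε / 2) ^ ν := by
    rw [div_pow, mul_div_assoc', div_lt_one (by positivity)] at hν
    calc 4 * φ ^ (n0 + ν) = 4 * φ ^ n0 * φ ^ ν := by rw [pow_add]; ring
      _ < _ := hν
  linarith

end

end Pool.Agent.Helper54
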