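import Mathlib

/-! Auxiliary lemmas for the two supercongruences of problem MP_77f5f4_nt (helper file). -/

open Finset

namespace Pool.Agent.Lib.Helper54.SunCatalanAux

/-! ### The polynomials `f_k(x) = binom(x,k) binom(-1-x,k)` -/

def f (k : ℕ) (x : ℚ) : ℚ := ∏ j ∈ range k, (-(x - j) * (x + 1 + j) / ((j : ℚ) + 1) ^ 2)

lemma f_zero (x : ℚ) : f 0 x = 1 := by simp [f]

lemma f_succ (k : ℕ) (x : ℚ) :
    f (k + 1) x = f k x * (-(x - k) * (x + 1 + k) / ((k : ℚ) + 1) ^ 2) := by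
  unfold f
  rw [prod_range_succ]

lemma fact3 (k : ℕ) : (((3 * k).factorial : ℕ) : ℚ) =
    ((2 * k).choose k : ℚ) * ((3 * k).choose k) * ((k.factorial : ℕ) : ℚ) ^ 3 := by
  have h1 := Nat.choose_mul_factorial_mul_factorial (show k ≤ 3 * k by omega)
  have h2 := Nat.choose_mul_factorial_mul_factorial (show k ≤ 2 * k by omega)
  have e1 : 3 * k - k = 2 * k := by omega
  have e2 : 2 * k - k = k := by omega
  rw [e1] at h1
  rw [e2] at h2
  rw [← h1, ← h2]
  push_cast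
  ring

lemma t_eq_f (k : ℕ) :
    ((2 * k).choose k : ℚ) * ((3 * k).choose k) / 27 ^ k = f k (-1 / 3) := by
  have hk : ∀ n : ℕ, ((n.factorial : ℕ) : ℚ) ≠ 0 := fun n => by
    exact_mod_cast Nat.factorial_ne_zero n
  have key : ∀ k : ℕ, (((3 * k).factorial : ℕ) : ℚ) / (((k.factorial : ℕ) : ℚ) ^ 3 * 27 ^ k)
      = f k (-1 / 3) := by
    intro k
    induction k with
    | zero => simp [f]
    | succ k ih =>
      rw [f_succ, ← ih]
      have e : 3 * (k + 1) = 3 * k + 1 + 1 + 1 := by ring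
      rw [e, Nat.factorial_succ, Nat.factorial_succ, Nat.factorial_succ, Nat.factorial_succ]
      have h1 := hk k
      have h2 : ((k : ℚ) + 1) ≠ 0 := by positivity
      push_cast
      field_simp
      ring
  rw [← key, fact3]
  have h1 := hk k
  field_simp

/-! ### Closed forms of three sums -/

/-- Gosper summation. -/
lemma sum1 (x : ℚ) (n : ℕ) :
    (-(x * (x + 1))) * ∑ k ∈ range n, f k x / ((k : ℚ) + 1) = n * f n x := by
  induction n with
  | zero => simp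
  | succ n ih =>
    rw [sum_range_succ, mul_add, ih, f_succ]
    have h2 : ((n : ℚ) + 1) ≠ 0 := by positivity
    push_cast
    field_simp
    ring

lemma sum2 (x : ℚ) (n : ℕ) :
    (x * (x + 1)) ^ 2 * ∑ k ∈ range n, f k x / ((k : ℚ) + 1) ^ 2
      = n * f n x - (x * (x + 1)) * (f n x - 1) := by
  induction n with
  | zero => simp [f_zero]
  | succ n ih =>
    rw [sum_range_succ, mul_add, ih, f_succ]
    have h2 : ((n : ℚ) + 1) ≠ 0 := by positivity
    push_cast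
    field_simp
    ring

/-- auxiliary product -/
def w (n : ℕ) (y : ℚ) : ℚ := ∏ j ∈ range (n - 1), (1 - y ^ 2 / ((j : ℚ) + 1) ^ 2)

/-- auxiliary term `u_k = (-1)^k binom(x+1,k) binom(x+k,k)` with `y = x + 1` -/
def u (k : ℕ) (y : ℚ) : ℚ := ∏ j ∈ range k, (-(y ^ 2 - (j : ℚ) ^ 2) / ((j : ℚ) + 1) ^ 2)

lemma u_succ (n : ℕ) (y : ℚ) : u (n + 1) y = u n y * (-(y ^ 2 - ((n : ℕ) : ℚ) ^ 2) /
        (((n : ℕ) : ℚ) + 1) ^ 2) := by
  unfold u
  rw [prod_range_succ]

lemma u_succ_eq (n : ℕ) (y : ℚ) : u (n + 1) y * ((n : ℚ) + 1) ^ 2 = - y ^ 2 * w (n + 1) y := by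
  induction n with
  | zero => simp [u, w]
  | succ n ih =>
    have h1 : u (n + 1 + 1) y = u (n + 1) y * (-(y ^ 2 - ((n + 1 : ℕ) : ℚ) ^ 2) /
        (((n + 1 : ℕ) : ℚ) + 1) ^ 2) := u_succ _ _
    have h2 : w (n + 1 + 1) y = w (n + 1) y * (1 - y ^ 2 / ((n : ℚ) + 1) ^ 2) := by
      simp [w, prod_range_succ]
    rw [h1, h2]
    have h3 : ((n : ℚ) + 1) ≠ 0 := by positivity
    have h4 : ((n : ℚ) + 1 + 1) ≠ 0 := by positivity
    have : u (n + 1) y = - y ^ 2 * w (n + 1) y / ((n : ℚ) + 1) ^ 2 := by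
      rw [← ih]; field_simp
    rw [this]
    push_cast
    field_simp
    ring

lemma sum_u (n : ℕ) (y : ℚ) : ∑ k ∈ range (n + 1), u k y = w (n + 1) y := by
  induction n with
  | zero => simp [u, w]
  | succ n ih =>
    rw [sum_range_succ, ih]
    have h2 : w (n + 1 + 1) y = w (n + 1) y * (1 - y ^ 2 / ((n : ℚ) + 1) ^ 2) := by
      simp [w, prod_range_succ]
    have h3 : ((n : ℚ) + 1) ≠ 0 := by positivity
    have : u (n + 1) y = - y ^ 2 * w (n + 1) y / ((n : ℚ) + 1) ^ 2 := by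
      rw [← u_succ_eq]; field_simp
    rw [this, h2]
    field_simp
    ring

/-- auxiliary common factor -/
def v (m : ℕ) (x : ℚ) : ℚ := ∏ j ∈ range m, (-(x - j) * (x + 2 + j) / ((j : ℚ) + 2) ^ 2)

lemma v_succ (m : ℕ) (x : ℚ) :
    v (m + 1) x = v m x * (-(x - m) * (x + 2 + m) / ((m : ℚ) + 2) ^ 2) := by
  unfold v
  rw [prod_range_succ]

lemma f_v (m : ℕ) (x : ℚ) : f (m + 1) x = -(x - m) * (x + 1) * v m x := by
  induction m with
  | zero => simp [f, v]
  | succ m ih =>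
    rw [f_succ, ih, v_succ]
    have h4 : ((m : ℚ) + 2) ≠ 0 := by positivity
    have h5 : ((m : ℚ) + 1 + 1) ≠ 0 := by positivity
    push_cast
    field_simp
    ring

lemma f_v' (m : ℕ) (x : ℚ) : f (m + 1) (x + 1) = -(x + 1) * (x + 2 + m) * v m x := by
  induction m with
  | zero =>
    simp only [f, v, range_one, prod_singleton, range_zero, prod_empty, zero_add]
    push_cast
    ring
  | succ m ih =>
    rw [f_succ, ih, v_succ]
    have h4 : ((m : ℚ) + 2) ≠ 0 := by positivity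
    have h5 : ((m : ℚ) + 1 + 1) ≠ 0 := by positivity
    push_cast
    field_simp
    ring

lemma u_v (m : ℕ) (x : ℚ) : u (m + 1) (x + 1) = -(x + 1) ^ 2 * v m x := by
  induction m with
  | zero => simp [u, v]
  | succ m ih =>
    have h1 : u (m + 1 + 1) (x + 1) = u (m + 1) (x + 1) *
        (-((x + 1) ^ 2 - ((m + 1 : ℕ) : ℚ) ^ 2) / (((m + 1 : ℕ) : ℚ) + 1) ^ 2) := u_succ _ _
    rw [h1, ih, v_succ]
    have h4 : ((m : ℚ) + 2) ≠ 0 := by positivity
    have h5 : ((m : ℚ) + 1 + 1) ≠ 0 := by positivity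
    push_cast
    field_simp
    ring

lemma term_id (k : ℕ) (x : ℚ) :
    (2 * x + 3) * f k (x + 1) - (2 * x + 1) * f k x = 2 * (2 * k + 1) * u k (x + 1) := by
  cases k with
  | zero => simp [f, u]; ring
  | succ m =>
    rw [f_v', f_v, u_v]
    push_cast
    ring

/-- `H_n(x) = (2x+1) ∑_{k<n} f_k(x)/(2k+1)` -/
def H (n : ℕ) (x : ℚ) : ℚ := (2 * x + 1) * ∑ k ∈ range n, f k x / (2 * (k : ℚ) + 1)

lemma H_step (n : ℕ) (x : ℚ) : H (n + 1) (x + 1) - H (n + 1) x = 2 * w (n + 1) (x + 1) := by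
  unfold H
  rw [← sum_u, mul_sum, mul_sum, mul_sum, ← sum_sub_distrib]
  refine sum_congr rfl fun k _ => ?_
  have h : (2 * (k : ℚ) + 1) ≠ 0 := by positivity
  have := term_id k x
  field_simp
  linear_combination this

lemma w_succ (k : ℕ) (y : ℚ) : w (k + 1 + 1) y = w (k + 1) y * (1 - y ^ 2 / ((k : ℚ) + 1) ^ 2) := by
  unfold w
  rw [show k + 1 + 1 - 1 = k + 1 by omega, show k + 1 - 1 = k by omega, prod_range_succ]

lemma w_one (y : ℚ) : w 1 y = 1 := by simp [w]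

lemma f_w (k : ℕ) (x : ℚ) :
    f (k + 1) x = -(x * (x + (k + 1))) / ((k : ℚ) + 1) ^ 2 * w (k + 1) x := by
  induction k with
  | zero =>
    simp only [f, w, range_one, prod_singleton, zero_add, Nat.sub_self, range_zero, prod_empty]
    push_cast
    ring
  | succ k ih =>
    rw [f_succ, ih, w_succ]
    have h4 : ((k : ℚ) + 1) ≠ 0 := by positivity
    have h5 : ((k : ℚ) + 1 + 1) ≠ 0 := by positivity
    push_cast
    field_simp
    ring

/-! ### `p`-integral rationals -/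

section local_ring

variable (p : ℕ) [hp : Fact p.Prime]

/-- The ring `ℤ_(p)`. -/
def Zl : Subring ℚ where
  carrier := {r | ∃ a : ℤ, ∃ b : ℕ, ¬ p ∣ b ∧ r = a / b}
  mul_mem' := by
    rintro x y ⟨a, b, hb, rfl⟩ ⟨c, d, hd, rfl⟩
    refine ⟨a * c, b * d, ?_, ?_⟩
    · rw [hp.out.dvd_mul]; tauto
    · push_cast
      rw [div_mul_div_comm]
  one_mem' := ⟨1, 1, by simpa using hp.out.one_lt.ne', by simp⟩
  add_mem' := by
    rintro x y ⟨a, b, hb, rfl⟩ ⟨c, d, hd, rfl⟩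
    have hb0 : (b : ℚ) ≠ 0 := by
      rintro h; apply hb; have : b = 0 := by exact_mod_cast h
      rw [this]; exact dvd_zero p
    have hd0 : (d : ℚ) ≠ 0 := by
      rintro h; apply hd; have : d = 0 := by exact_mod_cast h
      rw [this]; exact dvd_zero p
    refine ⟨a * d + c * b, b * d, ?_, ?_⟩
    · rw [hp.out.dvd_mul]; tauto
    · push_cast
      field_simp
  zero_mem' := ⟨0, 1, by simpa using hp.out.one_lt.ne', by simp⟩
  neg_mem' := by
    rintro x ⟨a, b, hb, rfl⟩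
    exact ⟨-a, b, hb, by push_cast; ring⟩

variable {p}

lemma int_mem (a : ℤ) : (a : ℚ) ∈ Zl p := ⟨a, 1, by simpa using hp.out.one_lt.ne', by simp⟩

lemma nat_mem (a : ℕ) : (a : ℚ) ∈ Zl p := by exact_mod_cast int_mem (p := p) a

lemma inv_mem {n : ℕ} (h : ¬ p ∣ n) : (n : ℚ)⁻¹ ∈ Zl p := ⟨1, n, h, by simp⟩

lemma div_mem {x : ℚ} {n : ℕ} (hx : x ∈ Zl p) (h : ¬ p ∣ n) : x / n ∈ Zl p := by
  rw [div_eq_mul_inv]
  exact (Zl p).mul_mem hx (inv_mem h)

variable (p)

/-- divisible by `p^m` in `ℤ_(p)` -/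
def D (m : ℕ) (r : ℚ) : Prop := ∃ q ∈ Zl p, r = (p : ℚ) ^ m * q

variable {p}

lemma D.add {m : ℕ} {a b : ℚ} (ha : D p m a) (hb : D p m b) : D p m (a + b) := by
  obtain ⟨x, hx, rfl⟩ := ha
  obtain ⟨y, hy, rfl⟩ := hb
  exact ⟨x + y, (Zl p).add_mem hx hy, by ring⟩

lemma D.neg {m : ℕ} {a : ℚ} (ha : D p m a) : D p m (-a) := by
  obtain ⟨x, hx, rfl⟩ := ha
  exact ⟨-x, (Zl p).neg_mem hx, by ring⟩

lemma D.sub {m : ℕ} {a b : ℚ} (ha : D p m a) (hb : D p m b) : D p m (a - b) := by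
  rw [sub_eq_add_neg]; exact ha.add hb.neg

lemma D.mul {m n : ℕ} {a b : ℚ} (ha : D p m a) (hb : D p n b) : D p (m + n) (a * b) := by
  obtain ⟨x, hx, rfl⟩ := ha
  obtain ⟨y, hy, rfl⟩ := hb
  exact ⟨x * y, (Zl p).mul_mem hx hy, by ring⟩

lemma D.mul_left {m : ℕ} {a b : ℚ} (ha : a ∈ Zl p) (hb : D p m b) : D p m (a * b) := by
  obtain ⟨y, hy, rfl⟩ := hb
  exact ⟨a * y, (Zl p).mul_mem ha hy, by ring⟩

lemma D.zero (m : ℕ) : D p m 0 := ⟨0, (Zl p).zero_mem, by ring⟩

lemma D.pmul {m : ℕ} {a : ℚ} (ha : a ∈ Zl p) : D p m ((p : ℚ) ^ m * a) := ⟨a, ha, rfl⟩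

lemma D.sum {ι : Type} (s : Finset ι) (g : ι → ℚ) {m : ℕ} (h : ∀ i ∈ s, D p m (g i)) :
    D p m (∑ i ∈ s, g i) := by
  classical
  induction s using Finset.induction_on with
  | empty => simpa using D.zero m
  | insert a s ha ih =>
    rw [sum_insert ha]
    exact (h a (mem_insert_self _ _)).add (ih fun i hi => h i (mem_insert_of_mem hi))

lemma D.mem {m : ℕ} {a : ℚ} (ha : D p m a) : a ∈ Zl p := by
  obtain ⟨x, hx, rfl⟩ := ha
  exact (Zl p).mul_mem ((Zl p).pow_mem (nat_mem p) m) hx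

lemma D.toExists {m : ℕ} {a b : ℚ} (h : D p m (a - b)) :
    ∃ r : ℚ, ¬ p ∣ r.den ∧ a - b = (p : ℚ) ^ m * r := by
  obtain ⟨q, ⟨x, y, hy, rfl⟩, hq⟩ := h
  refine ⟨(x : ℚ) / y, ?_, hq⟩
  intro hdvd
  apply hy
  have h1 : (((x : ℚ) / ((y : ℤ) : ℚ)).den : ℤ) ∣ (y : ℤ) := by
    rw [← Rat.divInt_eq_div]
    exact Rat.den_dvd _ _
  have h2 : (((x : ℚ) / (y : ℚ)).den : ℤ) ∣ (y : ℤ) := by exact_mod_cast h1
  have h3 : ((x : ℚ) / (y : ℚ)).den ∣ y := by exact_mod_cast h2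
  exact hdvd.trans h3

variable (p)

/-- `z` is the reduction of `r` modulo `p` -/
def Red (r : ℚ) (z : ZMod p) : Prop :=
  ∃ a : ℤ, ∃ b : ℕ, (b : ZMod p) ≠ 0 ∧ r = a / b ∧ z = a / b

variable {p}

lemma Red.add {r s : ℚ} {y z : ZMod p} (h : Red p r y) (h' : Red p s z) :
    Red p (r + s) (y + z) := by
  obtain ⟨a, b, hb, rfl, rfl⟩ := h
  obtain ⟨c, d, hd, rfl, rfl⟩ := h'
  have hb0 : (b : ℚ) ≠ 0 := by
    rintro h; apply hb; have : b = 0 := by exact_mod_cast h
    rw [this]; simp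
  have hd0 : (d : ℚ) ≠ 0 := by
    rintro h; apply hd; have : d = 0 := by exact_mod_cast h
    rw [this]; simp
  refine ⟨a * d + c * b, b * d, ?_, ?_, ?_⟩
  · push_cast
    exact mul_ne_zero hb hd
  · push_cast
    field_simp
  · push_cast
    field_simp

lemma Red.int (a : ℤ) : Red p (a : ℚ) (a : ZMod p) := ⟨a, 1, by simp, by simp, by simp⟩

lemma Red.inv {n : ℕ} (h : (n : ZMod p) ≠ 0) : Red p ((n : ℚ)⁻¹) ((n : ZMod p)⁻¹) :=
  ⟨1, n, h, by simp, by simp⟩

lemma Red.sum {ι : Type} (s : Finset ι) (g : ι → ℚ) (h : ι → ZMod p)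
    (H : ∀ i ∈ s, Red p (g i) (h i)) : Red p (∑ i ∈ s, g i) (∑ i ∈ s, h i) := by
  classical
  induction s using Finset.induction_on with
  | empty => simpa using Red.int (p := p) 0
  | insert a s ha ih =>
    rw [sum_insert ha, sum_insert ha]
    exact (H a (mem_insert_self _ _)).add (ih fun i hi => H i (mem_insert_of_mem hi))

lemma Red.toD {r : ℚ} (h : Red p r 0) : D p 1 r := by
  obtain ⟨a, b, hb, rfl, hz⟩ := h
  have ha : (a : ZMod p) = 0 := by
    rcases div_eq_zero_iff.1 hz.symm with h | h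
    · exact h
    · exact absurd h hb
  rw [ZMod.intCast_zmod_eq_zero_iff_dvd] at ha
  obtain ⟨c, rfl⟩ := ha
  refine ⟨(c : ℚ) / b, ⟨c, b, ?_, rfl⟩, ?_⟩
  · intro h; apply hb; exact (ZMod.natCast_eq_zero_iff b p).2 h
  · push_cast
    ring

/-- The key sum modulo `p`. -/
lemma sum_zmod (h2 : (2 : ZMod p) ≠ 0) :
    ∑ x : ZMod p, (x * (2 * x + 1))⁻¹ = 4 := by
  have hinv : ∑ x : ZMod p, x⁻¹ = 0 := by
    have e : ∑ x : ZMod p, x⁻¹ = ∑ x : ZMod p, x :=
      Fintype.sum_equiv (Equiv.inv (ZMod p)) _ _ (fun x => by simp)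
    rw [e]
    have := FiniteField.sum_pow_lt_card_sub_one (ZMod p) 1 (by
      rw [ZMod.card]
      have h3 : p ≠ 2 := by
        rintro rfl
        exact h2 (by exact_mod_cast ZMod.natCast_self 2)
      have := hp.out.two_le
      omega)
    simpa using this
  have hinv2 : ∑ x : ZMod p, (2 * x + 1)⁻¹ = 0 := by
    rw [← hinv]
    let e : ZMod p ≃ ZMod p := (Equiv.mulLeft₀ (2 : ZMod p) h2).trans (Equiv.addRight (1 : ZMod p))
    exact Fintype.sum_equiv e _ _ (fun x => by simp [e])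
  have key : ∀ x : ZMod p, (x * (2 * x + 1))⁻¹
      = x⁻¹ - 2 * (2 * x + 1)⁻¹ + (if x = 0 then 2 else 0) + (if x = -2⁻¹ then 2 else 0) := by
    intro x
    by_cases hx : x = 0
    · subst hx
      have : (0 : ZMod p) ≠ -2⁻¹ := by
        intro h
        have := inv_ne_zero h2
        apply this
        rw [← neg_eq_zero]; exact h.symm
      rw [if_pos rfl, if_neg this]
      simp
    · rw [if_neg hx]
      by_cases hx' : x = -2⁻¹
      · rw [if_pos hx']
        have : 2 * x + 1 = 0 := by rw [hx']; field_simp; ring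
        rw [this]
        rw [hx']
        simp
      · rw [if_neg hx']
        have h3 : 2 * x + 1 ≠ 0 := by
          intro h
          apply hx'
          field_simp
          linear_combination h
        have hx1 : x⁻¹ * x = 1 := inv_mul_cancel₀ hx
        have h31 : (2 * x + 1)⁻¹ * (2 * x + 1) = 1 := inv_mul_cancel₀ h3
        symm
        apply eq_inv_of_mul_eq_one_left
        linear_combination (2 * x + 1) * hx1 - 2 * x * h31
  rw [sum_congr rfl fun x _ => key x]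
  rw [sum_add_distrib, sum_add_distrib, sum_sub_distrib, hinv, ← mul_sum, hinv2]
  simp
  ring

lemma sum_range_zmod (g : ZMod p → ZMod p) :
    ∑ k ∈ range p, g (k : ZMod p) = ∑ x : ZMod p, g x := by
  refine sum_nbij' (fun k => (k : ZMod p)) (fun x => x.val) ?_ ?_ ?_ ?_ ?_
  · intro a _; exact mem_univ _
  · intro a _; rw [mem_range]; exact ZMod.val_lt a
  · intro a ha
    rw [mem_range] at ha
    exact ZMod.val_cast_of_lt ha
  · intro a _; exact ZMod.natCast_zmod_val a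
  · intro a _; rfl

lemma exists_j (h3 : ¬ p ∣ 3) (r : ℤ) (hr : ¬ (p : ℤ) ∣ r) :
    ∃ j ∈ range (p - 1), (p : ℤ) ∣ 3 * ((j : ℤ) + 1) - r := by
  have h3' : (3 : ZMod p) ≠ 0 := by
    intro h
    apply h3
    rw [← ZMod.natCast_eq_zero_iff]
    exact_mod_cast h
  have hr' : (r : ZMod p) ≠ 0 := by
    intro h; exact hr ((ZMod.intCast_zmod_eq_zero_iff_dvd r p).1 h)
  set z : ZMod p := (r : ZMod p) / 3 with hz
  have hz0 : z ≠ 0 := div_ne_zero hr' h3'
  have hv0 : z.val ≠ 0 := by rwa [Ne, ZMod.val_eq_zero]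
  have hvl := ZMod.val_lt z
  refine ⟨z.val - 1, by rw [mem_range]; omega, ?_⟩
  rw [← ZMod.intCast_zmod_eq_zero_iff_dvd]
  have : ((z.val - 1 : ℕ) : ℤ) + 1 = (z.val : ℤ) := by omega
  rw [this]
  push_cast
  rw [ZMod.natCast_zmod_val, hz]
  field_simp
  ring

lemma w_D2 (h3 : ¬ p ∣ 3) (r : ℕ) (hr : ¬ p ∣ r) : D p 2 (w p (-(r : ℚ) / 3)) := by
  have hr1 : ¬ (p : ℤ) ∣ (r : ℤ) := by exact_mod_cast hr
  have hr2 : ¬ (p : ℤ) ∣ (-(r : ℤ)) := by rwa [dvd_neg]
  obtain ⟨j0, hj0, hd0⟩ := exists_j h3 (r : ℤ) hr1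
  obtain ⟨j1, hj1, hd1⟩ := exists_j h3 (-(r : ℤ)) hr2
  have hA : (p : ℤ) ∣ ∏ j ∈ range (p - 1), (3 * ((j : ℤ) + 1) - r) :=
    hd0.trans (dvd_prod_of_mem _ hj0)
  have hB : (p : ℤ) ∣ ∏ j ∈ range (p - 1), (3 * ((j : ℤ) + 1) - (-(r : ℤ))) :=
    hd1.trans (dvd_prod_of_mem _ hj1)
  obtain ⟨a, ha⟩ := hA
  obtain ⟨b, hb⟩ := hB
  have hC : ¬ p ∣ ∏ j ∈ range (p - 1), (9 * (j + 1) ^ 2) := by
    rw [hp.out.prime.dvd_finsetProd_iff]
    rintro ⟨j, hj, hd⟩
    rw [mem_range] at hj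
    rw [hp.out.dvd_mul] at hd
    rcases hd with hd | hd
    · have : p ∣ 3 ^ 2 := by simpa using hd
      exact h3 (hp.out.dvd_of_dvd_pow this)
    · have := Nat.le_of_dvd (by omega) (hp.out.dvd_of_dvd_pow hd)
      omega
  have e : w p (-(r : ℚ) / 3) = ((∏ j ∈ range (p - 1), (3 * ((j : ℤ) + 1) - r) : ℤ) : ℚ) *
      ((∏ j ∈ range (p - 1), (3 * ((j : ℤ) + 1) - (-(r : ℤ))) : ℤ) : ℚ) /
      ((∏ j ∈ range (p - 1), (9 * (j + 1) ^ 2) : ℕ) : ℚ) := by
    unfold w
    push_cast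
    rw [← prod_mul_distrib, ← prod_div_distrib]
    refine prod_congr rfl fun j _ => ?_
    have h4 : ((j : ℚ) + 1) ≠ 0 := by positivity
    field_simp
    ring
  rw [e, ha, hb]
  refine ⟨(a * b : ℤ) / ((∏ j ∈ range (p - 1), (9 * (j + 1) ^ 2) : ℕ) : ℚ),
    ⟨a * b, _, hC, rfl⟩, ?_⟩
  push_cast
  ring

lemma w_one_add {s : ℚ} (hs : s ∈ Zl p) (k : ℕ) (hk : k + 1 < p) :
    D p 2 (w (k + 1) (p * s) - 1) := by
  induction k with
  | zero => rw [w_one, sub_self]; exact D.zero 2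
  | succ k ih =>
    have ih' := ih (by omega)
    rw [w_succ]
    have hk' : ¬ p ∣ (k + 1) ^ 2 := by
      intro h
      have := Nat.le_of_dvd (by omega) (hp.out.dvd_of_dvd_pow h)
      omega
    have h1 : D p 2 ((p * s) ^ 2 / ((k : ℚ) + 1) ^ 2) := by
      refine ⟨s ^ 2 / (((k + 1) ^ 2 : ℕ) : ℚ), div_mem ((Zl p).pow_mem hs 2) hk', ?_⟩
      push_cast
      ring
    have e : w (k + 1) (p * s) * (1 - (p * s) ^ 2 / ((k : ℚ) + 1) ^ 2) - 1
        = (w (k + 1) (p * s) - 1) - w (k + 1) (p * s) * ((p * s) ^ 2 / ((k : ℚ) + 1) ^ 2) := by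
      ring
    rw [e]
    refine ih'.sub (D.mul_left ?_ h1)
    have : w (k + 1) (p * s) = (w (k + 1) (p * s) - 1) + 1 := by ring
    rw [this]
    exact (Zl p).add_mem ih'.mem (Zl p).one_mem

lemma H_eval {s : ℚ} (hs : s ∈ Zl p) {m : ℕ} (hm : p = 2 * m + 1) (hm0 : 0 < m) :
    D p 2 (H p (p * s) - (1 + 2 * s)) := by
  have hpm : (p : ℚ) = 2 * m + 1 := by exact_mod_cast hm
  have hmQ : (m : ℚ) ≠ 0 := by exact_mod_cast hm0.ne'
  have hpQ : (p : ℚ) ≠ 0 := by rw [hpm]; positivity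
  have hmp : ¬ p ∣ m := fun h => by
    have := Nat.le_of_dvd hm0 h
    omega
  set a : ℕ → ℚ := fun k => f (k + 1) (p * s) / (2 * ((k + 1 : ℕ) : ℚ) + 1) with ha
  set b : ℕ → ℚ := fun k => if k + 1 = m then -(s * (p * s + m)) / (m : ℚ) ^ 2 else 0 with hb
  set g : ℕ → ℚ := fun k => if k + 1 = m then 0 else
    ((((k + 1) * (2 * (k + 1) + 1) : ℕ) : ℚ))⁻¹ with hg
  have hsum : ∑ k ∈ range p, f k (p * s) / (2 * (k : ℚ) + 1) = ∑ k ∈ range (2 * m), a k + 1 := by
    have e : range p = range (2 * m + 1) := by rw [hm]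
    rw [e, sum_range_succ', f_zero]
    simp [ha]
  have hab : ∀ k ∈ range (2 * m), D p 2 (a k - (b k + -(p * s) * g k)) := by
    intro k hk
    rw [mem_range] at hk
    have hk1 : ¬ p ∣ (k + 1) := fun h => by
      have := Nat.le_of_dvd (by omega) h
      omega
    have hk1' : ((k : ℚ) + 1) ≠ 0 := by positivity
    have hw := w_one_add hs k (by omega : k + 1 < p)
    simp only [ha, hb, hg]
    by_cases hkm : k + 1 = m
    · rw [if_pos hkm, if_pos hkm, f_w]
      have hkm' : (k : ℚ) + 1 = m := by exact_mod_cast hkm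
      have e : -(p * s * (p * s + (k + 1))) / ((k : ℚ) + 1) ^ 2 * w (k + 1) (p * s) /
          (2 * ((k + 1 : ℕ) : ℚ) + 1) - (-(s * (p * s + m)) / (m : ℚ) ^ 2 + -(p * s) * 0)
          = (-(s * (p * s + m)) / ((m ^ 2 : ℕ) : ℚ)) * (w (k + 1) (p * s) - 1) := by
        push_cast
        rw [hkm', ← hpm]
        field_simp
        ring
      rw [e]
      refine D.mul_left (div_mem ((Zl p).neg_mem ((Zl p).mul_mem hs ((Zl p).add_mem
        ((Zl p).mul_mem (nat_mem p) hs) (nat_mem m)))) ?_) hw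
      intro h
      exact hmp (hp.out.dvd_of_dvd_pow h)
    · rw [if_neg hkm, if_neg hkm, f_w]
      have hn : ¬ p ∣ (2 * (k + 1) + 1) := by
        rintro ⟨c, hc⟩
        have hc2 : c < 2 := by
          by_contra hcon
          have : p * 2 ≤ p * c := Nat.mul_le_mul_left p (by omega)
          omega
        interval_cases c
        · omega
        · omega
      have hd : ¬ p ∣ ((k + 1) ^ 2 * (2 * (k + 1) + 1)) := by
        rw [hp.out.dvd_mul]
        rintro (h | h)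
        · exact hk1 (hp.out.dvd_of_dvd_pow h)
        · exact hn h
      have hn' : (2 * ((k : ℚ) + 1) + 1) ≠ 0 := by positivity
      have e : -(p * s * (p * s + (k + 1))) / ((k : ℚ) + 1) ^ 2 * w (k + 1) (p * s) /
          (2 * ((k + 1 : ℕ) : ℚ) + 1) -
            (0 + -(p * s) * ((((k + 1) * (2 * (k + 1) + 1) : ℕ) : ℚ))⁻¹)
          = (-(p * s * (p * s + (k + 1))) / (((k + 1) ^ 2 * (2 * (k + 1) + 1) : ℕ) : ℚ)) *
              (w (k + 1) (p * s) - 1)
            + (p : ℚ) ^ 2 * (-(s ^ 2) / (((k + 1) ^ 2 * (2 * (k + 1) + 1) : ℕ) : ℚ)) := by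
        push_cast
        field_simp
        ring
      rw [e]
      refine D.add (D.mul_left (div_mem ((Zl p).neg_mem ((Zl p).mul_mem
        ((Zl p).mul_mem (nat_mem p) hs) ((Zl p).add_mem
        ((Zl p).mul_mem (nat_mem p) hs) ?_))) hd) hw) (D.pmul (div_mem ((Zl p).neg_mem
          ((Zl p).pow_mem hs 2)) hd))
      exact_mod_cast nat_mem (p := p) (k + 1)
  have hδ : D p 2 (∑ k ∈ range (2 * m), (a k - (b k + -(p * s) * g k))) := D.sum _ _ hab
  have hbsum : ∑ k ∈ range (2 * m), b k = -(s * (p * s + m)) / (m : ℚ) ^ 2 := by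
    rw [hb, sum_eq_single (m - 1)]
    · rw [if_pos (by omega)]
    · intro k _ hk
      rw [if_neg (by omega)]
    · intro h
      exfalso; apply h; rw [mem_range]; omega
  have hgsum : D p 1 (∑ k ∈ range (2 * m), g k - 4) := by
    have h2 : (2 : ZMod p) ≠ 0 := by
      intro h
      have : ((2 : ℕ) : ZMod p) = 0 := by exact_mod_cast h
      rw [ZMod.natCast_eq_zero_iff] at this
      have := Nat.le_of_dvd (by norm_num) this
      omega
    have hR : Red p (∑ k ∈ range (2 * m), g k) (∑ k ∈ range (2 * m),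
        ((((k + 1 : ℕ) : ZMod p)) * (2 * ((k + 1 : ℕ) : ZMod p) + 1))⁻¹) := by
      refine Red.sum _ _ _ fun k hk => ?_
      rw [mem_range] at hk
      simp only [hg]
      by_cases hkm : k + 1 = m
      · rw [if_pos hkm]
        have : (2 * ((k + 1 : ℕ) : ZMod p) + 1) = 0 := by
          have h1 : ((2 * m + 1 : ℕ) : ZMod p) = 0 := by
            rw [← hm]; simp
          rw [hkm]
          exact_mod_cast h1
        rw [this, mul_zero, inv_zero]
        simpa using Red.int (p := p) 0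
      · rw [if_neg hkm]
        have hn : ¬ p ∣ (2 * (k + 1) + 1) := by
          rintro ⟨c, hc⟩
          have hc2 : c < 2 := by
            by_contra hcon
            have : p * 2 ≤ p * c := Nat.mul_le_mul_left p (by omega)
            omega
          interval_cases c
          · omega
          · omega
        have hk1 : ¬ p ∣ (k + 1) := fun h => by
          have := Nat.le_of_dvd (by omega) h
          omega
        have := Red.inv (p := p) (n := (k + 1) * (2 * (k + 1) + 1)) (by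
          rw [Ne, ZMod.natCast_eq_zero_iff, hp.out.dvd_mul]
          tauto)
        convert this using 2
        push_cast
        ring
    have hz : (∑ k ∈ range (2 * m),
        ((((k + 1 : ℕ) : ZMod p)) * (2 * ((k + 1 : ℕ) : ZMod p) + 1))⁻¹) = 4 := by
      rw [← sum_zmod h2, ← sum_range_zmod (fun x => (x * (2 * x + 1))⁻¹)]
      have e : range p = range (2 * m + 1) := by rw [← hm]
      rw [e, sum_range_succ']
      simp
    rw [hz] at hR
    have := (hR.add (Red.int (p := p) (-4)))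
    apply Red.toD
    convert this using 1
    · push_cast; ring
    · push_cast; ring
  obtain ⟨ε, hε, hεe⟩ := hgsum
  set δ := ∑ k ∈ range (2 * m), (a k - (b k + -(p * s) * g k)) with hδdef
  have hasum : ∑ k ∈ range (2 * m), a k = δ + (-(s * (p * s + m)) / (m : ℚ) ^ 2
      + -(p * s) * (4 + (p : ℚ) ^ 1 * ε)) := by
    rw [hδdef, sum_sub_distrib, sum_add_distrib, hbsum, ← mul_sum]
    have : ∑ k ∈ range (2 * m), g k = 4 + (p : ℚ) ^ 1 * ε := by linear_combination hεe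
    rw [this]
    ring
  have h2m : ¬ p ∣ (2 * m) ^ 2 := by
    intro h
    have h1 := hp.out.dvd_of_dvd_pow h
    have := Nat.le_of_dvd (by omega) h1
    omega
  have hfin : H p (p * s) - (1 + 2 * s)
      = (2 * (p * s) + 1) * ((p : ℚ) ^ 2 * (-(s * ε)) +
          (p : ℚ) ^ 2 * (2 * s * (1 - 4 * s - p + 2 * p * s) / (((2 * m) ^ 2 : ℕ) : ℚ)) + δ)
        + (p : ℚ) ^ 2 * ((1 + 2 * s) * (-4 * s ^ 2)) := by
    unfold H
    rw [hsum, hasum]
    push_cast
    have hm' : (m : ℚ) = ((p : ℚ) - 1) / 2 := by rw [hpm]; ring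
    have hp1 : (p : ℚ) - 1 ≠ 0 := by
      intro h; apply hmQ; rw [hm', h]; ring
    rw [hm']
    field_simp
    ring
  rw [hfin]
  have h2 : (2 : ℚ) ∈ Zl p := by exact_mod_cast nat_mem (p := p) 2
  have h4 : (4 : ℚ) ∈ Zl p := by exact_mod_cast nat_mem (p := p) 4
  have hps : (p : ℚ) * s ∈ Zl p := (Zl p).mul_mem (nat_mem p) hs
  refine D.add (D.mul_left ((Zl p).add_mem ((Zl p).mul_mem h2 hps) (Zl p).one_mem)
    (D.add (D.add (D.pmul ((Zl p).neg_mem ((Zl p).mul_mem hs hε))) (D.pmul (div_mem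
      ((Zl p).mul_mem ((Zl p).mul_mem h2 hs) ?_) h2m))) hδ)) (D.pmul ((Zl p).mul_mem
        ((Zl p).add_mem (Zl p).one_mem ((Zl p).mul_mem h2 hs)) ((Zl p).mul_mem
          ((Zl p).neg_mem h4) ((Zl p).pow_mem hs 2))))
  exact (Zl p).add_mem ((Zl p).sub_mem ((Zl p).sub_mem (Zl p).one_mem
    ((Zl p).mul_mem h4 hs)) (nat_mem p)) ((Zl p).mul_mem ((Zl p).mul_mem h2 (nat_mem p)) hs)

lemma H_shift (h3 : ¬ p ∣ 3) (x : ℚ) (n : ℕ)
    (hx : ∀ i < n, ∃ r : ℕ, ¬ p ∣ r ∧ x + (i + 1) = -(r : ℚ) / 3) :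
    D p 2 (H p (x + n) - H p x) := by
  induction n with
  | zero => simpa using D.zero 2
  | succ n ih =>
    have ih' := ih fun i hi => hx i (by omega)
    obtain ⟨r, hr, hr'⟩ := hx n (by omega)
    have hp1 : p = (p - 1) + 1 := by have := hp.out.one_lt; omega
    have hs := H_step (p - 1) (x + n)
    rw [← hp1] at hs
    have e : H p (x + ((n + 1 : ℕ) : ℚ)) - H p x = 2 * w p (-(r : ℚ) / 3)
        + (H p (x + n) - H p x) := by
      rw [← hr']
      have e1 : x + ((n + 1 : ℕ) : ℚ) = x + n + 1 := by push_cast; ring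
      rw [e1, show x + ((n : ℚ) + 1) = x + n + 1 by ring]
      linear_combination hs
    rw [e]
    refine D.add (D.mul_left ?_ (w_D2 h3 r hr)) ih'
    exact_mod_cast nat_mem (p := p) 2

lemma T_eval (h3 : 3 < p) :
    D p 2 (∑ k ∈ range p, f k (-1 / 3) / (2 * (k : ℚ) + 1) - (legendreSym 3 p : ℤ)) := by
  have h3' : ¬ p ∣ 3 := fun h => by
    have := Nat.le_of_dvd (by norm_num) h
    omega
  have hp2 : p % 2 = 1 := by
    rcases hp.out.eq_two_or_odd with h | h
    · omega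
    · exact h
  obtain ⟨m, hm⟩ : ∃ m, p = 2 * m + 1 := ⟨p / 2, by omega⟩
  have hm0 : 0 < m := by omega
  have hp3 : p % 3 = 1 ∨ p % 3 = 2 := by
    have h0 : p % 3 ≠ 0 := by
      intro h
      have hd : 3 ∣ p := Nat.dvd_of_mod_eq_zero h
      have := (Nat.prime_dvd_prime_iff_eq Nat.prime_three hp.out).1 hd
      omega
    omega
  have hT : ∑ k ∈ range p, f k (-1 / 3) / (2 * (k : ℚ) + 1) = 3 * H p (-1 / 3) := by
    unfold H
    ring
  have hthree : (3 : ℚ) ∈ Zl p := by exact_mod_cast nat_mem (p := p) 3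
  rcases hp3 with h | h
  · obtain ⟨q, hq⟩ : ∃ q, p = 3 * q + 1 := ⟨p / 3, by omega⟩
    have hqQ : (p : ℚ) = 3 * q + 1 := by exact_mod_cast hq
    have hleg : legendreSym 3 (p : ℤ) = 1 := by
      rw [legendreSym.mod]
      have : (p : ℤ) % ((3 : ℕ) : ℤ) = 1 := by omega
      rw [this]
      exact legendreSym.at_one 3
    have hs : (-1 / 3 : ℚ) ∈ Zl p := by
      have := div_mem (p := p) (n := 3) ((Zl p).neg_mem (Zl p).one_mem) h3'
      exact_mod_cast this
    have h1 := H_eval hs hm hm0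
    have h2 := H_shift h3' ((p : ℚ) * (-1 / 3)) q (fun i hi => ⟨3 * (q - 1 - i) + 1, fun hd => by
      have := Nat.le_of_dvd (by omega) hd
      omega, by
        have e : ((q - 1 - i : ℕ) : ℚ) = (q : ℚ) - 1 - i := by
          rw [Nat.sub_sub, Nat.cast_sub (by omega)]; push_cast; ring
        push_cast
        rw [e, hqQ]
        ring⟩)
    have e : (p : ℚ) * (-1 / 3) + q = -1 / 3 := by rw [hqQ]; ring
    rw [e] at h2
    rw [hT, hleg]
    have e2 : 3 * H p (-1 / 3) - ((1 : ℤ) : ℚ) = 3 * ((H p (-1 / 3) - H p ((p : ℚ) * (-1 / 3)))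
        + (H p ((p : ℚ) * (-1 / 3)) - (1 + 2 * (-1 / 3)))) := by
      push_cast; ring
    rw [e2]
    exact D.mul_left hthree (h2.add h1)
  · obtain ⟨q, hq⟩ : ∃ q, p = 3 * q + 2 := ⟨p / 3, by omega⟩
    have hqQ : (p : ℚ) = 3 * q + 2 := by exact_mod_cast hq
    have hleg : legendreSym 3 (p : ℤ) = -1 := by
      rw [legendreSym.mod]
      have : (p : ℤ) % ((3 : ℕ) : ℤ) = 2 := by omega
      rw [this]
      norm_num
    have hs : (-2 / 3 : ℚ) ∈ Zl p := by
      have h2 : (2 : ℚ) ∈ Zl p := by exact_mod_cast nat_mem (p := p) 2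
      have := div_mem (p := p) (n := 3) ((Zl p).neg_mem h2) h3'
      exact_mod_cast this
    have h1 := H_eval hs hm hm0
    have h2 := H_shift h3' ((p : ℚ) * (-2 / 3)) (2 * q + 1)
      (fun i hi => ⟨3 * (2 * q - i) + 1, fun hd => by
      obtain ⟨c, hc⟩ := hd
      have hc2 : c < 2 := by
        by_contra hcon
        have : p * 2 ≤ p * c := Nat.mul_le_mul_left p (by omega)
        omega
      interval_cases c
      · omega
      · omega, by
        have e : ((2 * q - i : ℕ) : ℚ) = 2 * (q : ℚ) - i := by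
          rw [Nat.cast_sub (by omega)]; push_cast; ring
        push_cast
        rw [e, hqQ]
        ring⟩)
    have e : (p : ℚ) * (-2 / 3) + ((2 * q + 1 : ℕ) : ℚ) = -1 / 3 := by
      rw [hqQ]; push_cast; ring
    rw [e] at h2
    rw [hT, hleg]
    have e2 : 3 * H p (-1 / 3) - ((-1 : ℤ) : ℚ) = 3 * ((H p (-1 / 3) - H p ((p : ℚ) * (-2 / 3)))
        + (H p ((p : ℚ) * (-2 / 3)) - (1 + 2 * (-2 / 3)))) := by
      push_cast; ring
    rw [e2]
    exact D.mul_left hthree (h2.add h1)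

lemma fp_eval (h3 : 3 < p) : D p 1 (f p (-1 / 3) - 2 / 9) := by
  have hA : (((2 * p).choose p : ℕ) : ZMod p) = 2 := by
    have := Choose.choose_modEq_choose_mod_mul_choose_div (n := 2 * p) (k := p) (p := p)
    rw [Nat.mul_mod_left, Nat.mod_self, Nat.mul_div_cancel _ hp.out.pos,
      Nat.div_self hp.out.pos] at this
    have := (ZMod.intCast_eq_intCast_iff _ _ p).2 this
    push_cast at this
    rw [this]
    simp
  have hB : (((3 * p).choose p : ℕ) : ZMod p) = 3 := by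
    have := Choose.choose_modEq_choose_mod_mul_choose_div (n := 3 * p) (k := p) (p := p)
    rw [Nat.mul_mod_left, Nat.mod_self, Nat.mul_div_cancel _ hp.out.pos,
      Nat.div_self hp.out.pos] at this
    have := (ZMod.intCast_eq_intCast_iff _ _ p).2 this
    push_cast at this
    rw [this]
    simp
  have h3' : ¬ p ∣ 3 := fun h => by
    have := Nat.le_of_dvd (by norm_num) h
    omega
  have h9 : ¬ p ∣ 9 * 27 ^ p := by
    have : (9 * 27 ^ p : ℕ) = 3 ^ (2 + 3 * p) := by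
      rw [show (9 : ℕ) = 3 ^ 2 by norm_num, show (27 : ℕ) = 3 ^ 3 by norm_num, ← pow_mul,
        ← pow_add]
    rw [this]
    intro h
    exact h3' (hp.out.dvd_of_dvd_pow h)
  have hnum : (p : ℤ) ∣ (9 * ((2 * p).choose p * (3 * p).choose p : ℕ) - 2 * 27 ^ p : ℤ) := by
    rw [← ZMod.intCast_zmod_eq_zero_iff_dvd]
    push_cast
    rw [hA, hB, ZMod.pow_card]
    ring
  obtain ⟨c, hc⟩ := hnum
  refine ⟨(c : ℚ) / ((9 * 27 ^ p : ℕ) : ℚ), ⟨c, _, h9, rfl⟩, ?_⟩
  rw [← t_eq_f]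
  have hcQ : (9 * ((2 * p).choose p * (3 * p).choose p) - 2 * 27 ^ p : ℚ) = p * c := by
    exact_mod_cast hc
  have e : (p : ℚ) ^ 1 * ((c : ℚ) / ((9 * 27 ^ p : ℕ) : ℚ))
      = (p * c) / ((9 * 27 ^ p : ℕ) : ℚ) := by ring
  rw [e, ← hcQ]
  push_cast
  field_simp

end local_ring

end Pool.Agent.Lib.Helper54.SunCatalanAux
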